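import Pool.Agent.Lib.MP_8fffab_lc_NM.Ineq
import Pool.Agent.Lib.MP_8fffab_lc_NM.CoreNum
import Pool.Agent.Lib.MP_8fffab_lc_scm_h93.OneDimI

/-! Small monotone circuits cannot tell random partitions from random sum-zero families: the
parameters are chosen. -/

open Finset FewNeg

namespace SetCoverMono

theorem core_ineq {k : ℕ} (hk : 2 ≤ k) {η : ℝ} (hη : 0 < η) : ∃ (p : ℕ) (_ : Fact p.Prime)
    (u₀ : ℕ), 0 < u₀ ∧ ∀ u ≥ u₀, ∀ y₀ : Fin (k * u) → Fin k,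
      (∀ j, (univ.filter fun v => y₀ v = j).card = u) →
      ∀ (ι : Type) (a : (Finset (Fin (k * u)) → Prop) → ι → Prop), IsLit (k * u) u a →
      ∀ (C : Circuit ι) (o s : ℕ), o < s →
        avg (fun π : Equiv.Perm (Fin (k * u)) => ind (C.val (a (classes (y₀ ∘ π))) o)) ≤
          avg (fun f : {f : Fin (k * u) → ZMod p // ∑ v, f v ≠ 0} =>
            ind (C.val (a (zeros f.1)) o)) +
          (C.numAnd s * (2 : ℝ) ^ (-((1 - η) * (k * u : ℕ))) + (2 : ℝ) ^ (-((u : ℝ) / 4))) := by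
  obtain ⟨H, G, hH, hnum⟩ := core_num hk hη
  obtain ⟨p, t, hp, hG, h1⟩ := one_dim k G
  obtain ⟨u₀, hu₀⟩ := hnum p t
  refine ⟨p, hp, u₀ + 1, Nat.succ_pos _, ?_⟩
  intro u hu y₀ hy₀ ι a ha C o s ho
  obtain ⟨κ, hκ⟩ : ∃ κ, κ = 2 ^ (k * u / H) := ⟨_, rfl⟩
  have hκ0 : 0 < κ := by rw [hκ]; positivity
  obtain ⟨n1, n2⟩ := hu₀ u (by omega) (k * u) κ rfl hκ
  have h2u : 2 * u ≤ k * u := Nat.mul_le_mul_right _ hk
  have hmain := ineq hG h1 hκ0 y₀ hy₀ h2u (by omega) ha C ho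
  refine hmain.trans ?_
  have hN : (0 : ℝ) ≤ C.numAnd s := Nat.cast_nonneg _
  obtain ⟨x1, hx1⟩ : ∃ x1 : ℝ, x1 = κ ^ k * κ ^ k * (3 ^ k * ((k * u : ℕ) + 1)) / 2 ^ (k * u) :=
    ⟨_, rfl⟩
  obtain ⟨x2, hx2⟩ : ∃ x2 : ℝ, x2 = (κ : ℝ) ^ k * (2 ^ k / 2 ^ u) := ⟨_, rfl⟩
  obtain ⟨x3, hx3⟩ : ∃ x3 : ℝ, x3 = 2 * (((k : ℝ) + 1) ^ (k * u + 1) *
    p ^ (k * (2 * t + 1))) / κ ^ G := ⟨_, rfl⟩
  rw [← hx1, ← hx3] at n1
  rw [← hx2, ← hx3] at n2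
  rw [← hx1, ← hx2, ← hx3]
  nlinarith

end SetCoverMono
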