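import Pool.Agent.Lib.MP_8fffab_lc_NM.Embed

/-! Tagged sets: many levels of instances which do not interact. -/

open Finset

namespace AlmostMono

variable {k u B h : ℕ}

/-- The points of the tags of the `k` positions. -/
abbrev TagPt (k B : ℕ) := Fin k × (Bool ⊕ (Fin B × Bool))

/-- The points of the tag of position `j` at level `i`: its own block, and the complement in the
next block. -/
def tagPt (j : Fin k) (i : Fin B → Bool) : Bool × Option (Fin B) → TagPt k B
  | (c, none) => (if c then finRotate k j else j, .inl c)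
  | (c, some b) => (if c then finRotate k j else j, .inr (b, xor c (i b)))

theorem rot_ne (hk : 2 ≤ k) (j : Fin k) : finRotate k j ≠ j := by
  obtain ⟨n, rfl⟩ : ∃ n, k = n + 2 := ⟨k - 2, by omega⟩
  rw [finRotate_apply]
  intro h
  simp at h

theorem rot_const {α : Type} (g : Fin k → α) (hg : ∀ j, g (finRotate k j) = g j) (j j' : Fin k) :
    g j = g j' := by
  cases k with
  | zero => exact j.elim0
  | succ n =>
    have key : ∀ m (hm : m < n + 1), g ⟨m, hm⟩ = g 0 := by
      intro m
      induction m with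
      | zero => intro _; rfl
      | succ m ih =>
        intro hm
        rw [← ih (by omega), ← hg ⟨m, by omega⟩]
        congr 1
        rw [finRotate_apply]
        ext
        rw [Fin.val_add_one_of_lt]
        rw [Fin.lt_def]
        simp only [Fin.val_last]
        omega
    rw [key j j.2, key j' j'.2]

theorem tagPt_injective (hk : 2 ≤ k) (j : Fin k) (i : Fin B → Bool) :
    Function.Injective (tagPt j i) := by
  rintro ⟨c, o⟩ ⟨c', o'⟩ hh
  have hc : c = c' := by
    have h1 : (tagPt j i (c, o)).1 = (tagPt j i (c', o')).1 := congrArg Prod.fst hh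
    have h2 : ∀ c o, (tagPt j i (c, o)).1 = if c then finRotate k j else j := by
      intro c o
      cases o <;> rfl
    rw [h2, h2] at h1
    have h3 := rot_ne hk j
    cases c with
    | false =>
      cases c' with
      | false => rfl
      | true => exact absurd h1.symm h3
    | true =>
      cases c' with
      | false => exact absurd h1 h3
      | true => rfl
  subst hc
  cases o with
  | none =>
    cases o' with
    | none => rfl
    | some b => simp [tagPt] at hh
  | some b =>
    cases o' with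
    | none => simp [tagPt] at hh
    | some b' =>
      simp only [tagPt, Prod.mk.injEq, Sum.inr.injEq, true_and] at hh
      rw [hh.1]

/-- The set `A` with the tag of position `j` and level `i`. -/
def tset (A : Finset (Fin (k * u))) (j : Fin k) (i : Fin B → Bool) :
    Finset (Fin (k * u) ⊕ TagPt k B) :=
  A.disjSum (univ.image (tagPt j i))

theorem card_tset (hk : 2 ≤ k) (A : Finset (Fin (k * u))) (j : Fin k) (i : Fin B → Bool) :
    (tset A j i).card = A.card + (2 * B + 2) := by
  unfold tset
  rw [card_disjSum, card_image_of_injective _ (tagPt_injective hk j i), card_univ]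
  simp only [Fintype.card_prod, Fintype.card_bool, Fintype.card_option, Fintype.card_fin]
  ring

theorem inl_mem_tset {A : Finset (Fin (k * u))} {j : Fin k} {i : Fin B → Bool}
    {v : Fin (k * u)} : Sum.inl v ∈ tset A j i ↔ v ∈ A := by
  simp [tset]

theorem own_mem_tset {A : Finset (Fin (k * u))} {j : Fin k} {i : Fin B → Bool}
    {j' : Fin k} : Sum.inr (j', Sum.inl false) ∈ tset A j i ↔ j' = j := by
  simp only [tset, inr_mem_disjSum, mem_image, mem_univ, true_and]
  constructor
  · rintro ⟨⟨c, o⟩, h⟩
    cases o with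
    | none =>
      simp only [tagPt, Prod.mk.injEq, Sum.inl.injEq] at h
      rw [← h.1, h.2]
      simp
    | some b => simp [tagPt] at h
  · rintro rfl
    exact ⟨(false, none), by simp [tagPt]⟩

theorem next_mem_tset {A : Finset (Fin (k * u))} {j : Fin k} {i : Fin B → Bool}
    {j' : Fin k} : Sum.inr (j', Sum.inl true) ∈ tset A j i ↔ j' = finRotate k j := by
  simp only [tset, inr_mem_disjSum, mem_image, mem_univ, true_and]
  constructor
  · rintro ⟨⟨c, o⟩, h⟩
    cases o with
    | none =>
      simp only [tagPt, Prod.mk.injEq, Sum.inl.injEq] at h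
      rw [← h.1, h.2]
      simp
    | some b => simp [tagPt] at h
  · rintro rfl
    exact ⟨(true, none), by simp [tagPt]⟩

theorem bit_mem_tset {A : Finset (Fin (k * u))} {j : Fin k} {i : Fin B → Bool}
    {j' : Fin k} {b : Fin B} {c : Bool} : Sum.inr (j', Sum.inr (b, c)) ∈ tset A j i ↔
      (j' = j ∧ c = i b) ∨ (j' = finRotate k j ∧ c = !(i b)) := by
  simp only [tset, inr_mem_disjSum, mem_image, mem_univ, true_and]
  constructor
  · rintro ⟨⟨c', o⟩, h⟩
    cases o with
    | none => simp [tagPt] at h
    | some b' =>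
      simp only [tagPt, Prod.mk.injEq, Sum.inr.injEq] at h
      obtain ⟨h1, h2, h3⟩ := h
      subst h2
      cases c' with
      | false => left; exact ⟨by simpa using h1.symm, by simpa using h3.symm⟩
      | true => right; exact ⟨by simpa using h1.symm, by simpa using h3.symm⟩
  · rintro (⟨rfl, rfl⟩ | ⟨rfl, rfl⟩)
    · exact ⟨(false, some b), by simp [tagPt]⟩
    · exact ⟨(true, some b), by simp [tagPt]⟩

theorem tset_injective {A A' : Finset (Fin (k * u))} {j j' : Fin k} {i i' : Fin B → Bool}
    (hk : 2 ≤ k) (hh : tset A j i = tset A' j' i') : A = A' ∧ j = j' ∧ i = i' := by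
  have hA : A = A' := by
    ext v
    rw [← inl_mem_tset (j := j) (i := i), hh, inl_mem_tset]
  have hj : j = j' := by
    rw [← own_mem_tset (A := A') (i := i'), ← hh, own_mem_tset]
  refine ⟨hA, hj, ?_⟩
  funext b
  have h1 : Sum.inr (j, Sum.inr (b, i b)) ∈ tset A j i := bit_mem_tset.2 (Or.inl ⟨rfl, rfl⟩)
  rw [hh, bit_mem_tset] at h1
  rcases h1 with h1 | h1
  · exact h1.2
  · rw [← hj] at h1
    exact absurd h1.1.symm (rot_ne hk j)

/-- The family of tagged sets belonging to a set of pairs (level, set), transported by `φ`. -/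
def fam (φ : (Fin (k * u) ⊕ TagPt k B) ≃ Fin (k * h))
    (S : Set ((Fin B → Bool) × Finset (Fin (k * u)))) (H : Finset (Fin (k * h))) : Prop :=
  ∃ i A j, (i, A) ∈ S ∧ A.card = u ∧ H = (tset A j i).map φ.toEmbedding

theorem fam_mono (φ : (Fin (k * u) ⊕ TagPt k B) ≃ Fin (k * h))
    {S S' : Set ((Fin B → Bool) × Finset (Fin (k * u)))} (hS : S ⊆ S') (H : Finset (Fin (k * h))) :
    fam φ S H → fam φ S' H := by
  rintro ⟨i, A, j, h1, h2⟩
  exact ⟨i, A, j, hS h1, h2⟩

theorem fam_lit (hk : 2 ≤ k) (φ : (Fin (k * u) ⊕ TagPt k B) ≃ Fin (k * h))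
    (H : Finset (Fin (k * h))) : (∀ S, ¬ fam φ S H) ∨
      ∃ (i : Fin B → Bool) (A : Finset (Fin (k * u))), A.card = u ∧ ∀ S, fam φ S H ↔ (i, A) ∈ S := by
  by_cases hex : ∃ (i : Fin B → Bool) (A : Finset (Fin (k * u))) (j : Fin k),
      A.card = u ∧ H = (tset A j i).map φ.toEmbedding
  · right
    obtain ⟨i, A, j, hA, hH⟩ := hex
    refine ⟨i, A, hA, fun S => ⟨?_, fun hS => ⟨i, A, j, hS, hA, hH⟩⟩⟩
    rintro ⟨i', A', j', hS, -, hH'⟩
    have h1 : tset A j i = tset A' j' i' := by
      rw [hH] at hH'
      exact map_injective _ hH'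
    obtain ⟨h2, -, h3⟩ := tset_injective hk h1
    rw [h2, h3]
    exact hS
  · left
    rintro S ⟨i, A, j, hS, hA, hH⟩
    exact hex ⟨i, A, j, hA, hH⟩

theorem exists_equiv (hh : h = u + (2 * B + 2)) :
    Nonempty ((Fin (k * u) ⊕ TagPt k B) ≃ Fin (k * h)) := by
  refine ⟨Fintype.equivFinOfCardEq ?_⟩
  simp only [Fintype.card_sum, Fintype.card_prod, Fintype.card_bool, Fintype.card_fin]
  rw [hh]
  ring

/-- A partition at one level gives a partition. -/
theorem part_of_level (hk : 2 ≤ k) (hh : h = u + (2 * B + 2))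
    (φ : (Fin (k * u) ⊕ TagPt k B) ≃ Fin (k * h))
    {S : Set ((Fin B → Bool) × Finset (Fin (k * u)))} {i : Fin B → Bool}
    {y : Fin (k * u) → Fin k}
    (hy : IsPart u (fun A => (i, A) ∈ S) y) :
    ∃ y' : Fin (k * h) → Fin k, IsPart h (fam φ S) y' := by
  classical
  choose A hA1 hA2 hA3 using hy
  obtain ⟨z, hz⟩ : ∃ z : Fin (k * u) ⊕ TagPt k B → Fin k, z = fun w => match w with
      | .inl v => y v
      | .inr (j, .inl false) => j
      | .inr (j, .inl true) => (finRotate k).symm j
      | .inr (j, .inr (b, c)) => if c = i b then j else (finRotate k).symm j := ⟨_, rfl⟩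
  refine ⟨fun v => z (φ.symm v), fun j => ⟨(tset (A j) j i).map φ.toEmbedding,
    ⟨i, A j, j, hA1 j, hA2 j, rfl⟩, ?_, ?_⟩⟩
  · rw [card_map, card_tset hk, hA2, hh]
  · intro v
    obtain ⟨w, rfl⟩ := φ.surjective v
    rw [mem_map_equiv]
    change φ.symm (φ w) ∈ _ ↔ z (φ.symm (φ w)) = j
    rw [Equiv.symm_apply_apply, hz]
    rcases w with v | ⟨j', c | ⟨b, c⟩⟩
    · rw [inl_mem_tset, hA3]
    · cases c with
      | false => rw [own_mem_tset]
      | true =>
        rw [next_mem_tset]
        exact (Equiv.symm_apply_eq _).symm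
    · rw [bit_mem_tset]
      simp only
      by_cases hc : c = i b
      · rw [if_pos hc]
        constructor
        · rintro (h1 | h1)
          · exact h1.1
          · exfalso
            rw [hc] at h1
            cases hi : i b <;> simp [hi] at h1
        · exact fun h1 => Or.inl ⟨h1, hc⟩
      · rw [if_neg hc, Equiv.symm_apply_eq]
        constructor
        · rintro (h1 | h1)
          · exact absurd h1.2 hc
          · exact h1.1
        · intro h1
          refine Or.inr ⟨h1, ?_⟩
          cases hi : i b <;> cases c <;> simp_all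

/-- Every partition stays in one level. -/
theorem level_of_part (hk : 2 ≤ k) (φ : (Fin (k * u) ⊕ TagPt k B) ≃ Fin (k * h))
    {S : Set ((Fin B → Bool) × Finset (Fin (k * u)))} {y' : Fin (k * h) → Fin k}
    (hy' : IsPart h (fam φ S) y') :
    ∃ (i : Fin B → Bool) (y : Fin (k * u) → Fin k), IsPart u (fun A => (i, A) ∈ S) y := by
  classical
  have h0 : ∀ l, ∃ (i : Fin B → Bool) (A : Finset (Fin (k * u))) (j : Fin k), (i, A) ∈ S ∧
      A.card = u ∧ ∀ w, w ∈ tset A j i ↔ y' (φ w) = l := by
    intro l
    obtain ⟨H, ⟨i, A, j, h1, h2, h3⟩, -, h5⟩ := hy' l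
    refine ⟨i, A, j, h1, h2, fun w => ?_⟩
    rw [← h5, h3, mem_map_equiv, Equiv.symm_apply_apply]
  choose i A j hS hA hw using h0
  have hsurj : Function.Surjective j := by
    intro j₀
    refine ⟨y' (φ (Sum.inr (j₀, Sum.inl false))), ?_⟩
    have h1 := (hw (y' (φ (Sum.inr (j₀, Sum.inl false)))) (Sum.inr (j₀, Sum.inl false))).2 rfl
    rw [own_mem_tset] at h1
    exact h1.symm
  have hinj : Function.Injective j := Finite.injective_iff_surjective.2 hsurj
  obtain ⟨q, hq⟩ := hsurj.hasRightInverse
  have hcons : ∀ j₀, i (q (finRotate k j₀)) = i (q j₀) := by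
    intro j₀
    funext b
    by_contra hne
    have h1 : y' (φ (Sum.inr (finRotate k j₀, Sum.inr (b, i (q (finRotate k j₀)) b)))) =
        q (finRotate k j₀) := by
      rw [← hw, bit_mem_tset]
      exact Or.inl ⟨(hq _).symm, rfl⟩
    have h2 : y' (φ (Sum.inr (finRotate k j₀, Sum.inr (b, i (q (finRotate k j₀)) b)))) =
        q j₀ := by
      rw [← hw, bit_mem_tset]
      refine Or.inr ⟨by rw [hq], ?_⟩
      cases h3 : i (q (finRotate k j₀)) b <;> cases h4 : i (q j₀) b <;> simp_all
    have h3 : q (finRotate k j₀) = q j₀ := h1.symm.trans h2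
    have h4 := congrArg j h3
    rw [hq, hq] at h4
    exact rot_ne hk j₀ h4
  have hall : ∀ l l', i l = i l' := by
    intro l l'
    have h1 : i (q (j l)) = i (q (j l')) := rot_const (fun j₀ => i (q j₀)) hcons (j l) (j l')
    have h2 : ∀ l, q (j l) = l := fun l => hinj (hq (j l))
    rw [h2, h2] at h1
    exact h1
  refine ⟨i ⟨0, by omega⟩, fun v => y' (φ (Sum.inl v)), fun l => ⟨A l, ?_, hA l, fun v => ?_⟩⟩
  · rw [hall ⟨0, by omega⟩ l]
    exact hS l
  · rw [← hw, inl_mem_tset]

end AlmostMono
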