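import Pool.Agent.Lib.MP_8fffab_lc_NM.Rand
import Pool.Agent.Lib.MP_8fffab_lc_NM.Tag
import Pool.Agent.Lib.MP_8fffab_lc_NM.CoreIneq
import Pool.Agent.Lib.MP_8fffab_lc_MC.End
import Pool.Agent.Lib.MP_8fffab_lc_MC.Num

/-! The lower bound for circuits with few gates other than AND and OR. -/

open Finset FewNeg

namespace AlmostMono

open SetCoverMono (classes zeros col)

/-- Replace the gates other than AND and OR gates by constants. -/
noncomputable def fixC {ι : Type} (C : Circuit ι) (β : ℕ → Prop) : SetCoverMono.Circuit ι := by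
  classical exact fun i => match C i with
    | .input v => .input v
    | .const b => .const b
    | .and a b => .and a b
    | .or S => .or S
    | .other _ _ _ => .const (decide (β i))

theorem fixC_val {ι : Type} (C : Circuit ι) (β : ℕ → Prop) (x : ι → Prop) (i : ℕ) :
    (fixC C β).val x i ↔ C.mval β x i := by
  classical
  induction i using Nat.strong_induction_on with
  | _ i ih =>
    unfold SetCoverMono.Circuit.val Circuit.mval fixC
    cases hC : C i with
    | input v => simp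
    | const b => simp
    | and a b => exact and_congr (ih a a.isLt) (ih b b.isLt)
    | or S => exact exists_congr fun a => and_congr_right fun _ => ih a a.isLt
    | other r w g => simp

theorem fixC_numAnd {ι : Type} (C : Circuit ι) (β : ℕ → Prop) {i o : ℕ} (hi : i ≤ o) :
    (fixC C β).numAnd (i + 1) ≤ C.numAnd o := by
  classical
  unfold SetCoverMono.Circuit.numAnd Circuit.numAnd
  apply card_le_card
  intro j hj
  rw [mem_filter, mem_range] at hj ⊢
  refine ⟨by omega, ?_⟩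
  have h1 := hj.2
  unfold fixC at h1
  cases hC : C j with
  | and a b => rfl
  | input v => rw [hC] at h1; exact absurd h1 (by simp [SetCoverMono.Gate.isAnd])
  | const b => rw [hC] at h1; exact absurd h1 (by simp [SetCoverMono.Gate.isAnd])
  | or S => rw [hC] at h1; exact absurd h1 (by simp [SetCoverMono.Gate.isAnd])
  | other r w g => rw [hC] at h1; exact absurd h1 (by simp [SetCoverMono.Gate.isAnd])

/-- The level with number `l`. -/
def lev (B l : ℕ) (b : Fin B) : Bool := Nat.testBit l b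

theorem lev_inj {B l l' : ℕ} (hl : l < 2 ^ B) (hl' : l' < 2 ^ B) (h : lev B l = lev B l') :
    l = l' := by
  apply Nat.eq_of_testBit_eq
  intro i
  by_cases hi : i < B
  · exact congrFun h ⟨i, hi⟩
  · rw [not_lt] at hi
    rw [Nat.testBit_lt_two_pow (hl.trans_le (Nat.pow_le_pow_right (by norm_num) hi)),
      Nat.testBit_lt_two_pow (hl'.trans_le (Nat.pow_le_pow_right (by norm_num) hi))]

theorem reach_spec {E Ω : Type} [Nonempty Ω] {X : ℕ → Ω → Set E} {l : ℕ} {S : Set E}
    (h : Reach X l S) : ∃ ω : ℕ → Ω, ∀ e ∈ S, ∃ l' < l, e ∈ X l' (ω l') := by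
  classical
  induction h with
  | zero => exact ⟨fun _ => Classical.arbitrary Ω, fun e he => absurd he (Set.notMem_empty e)⟩
  | @succ i S w _ ih =>
    obtain ⟨ω, hω⟩ := ih
    refine ⟨Function.update ω i w, fun e he => ?_⟩
    rcases he with he | he
    · obtain ⟨l', hl', h⟩ := hω e he
      refine ⟨l', by omega, ?_⟩
      rw [Function.update_of_ne (by omega)]
      exact h
    · refine ⟨i, by omega, ?_⟩
      rw [Function.update_self]
      exact he

section Assembly

variable {k u B h n p : ℕ}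

/-- The negative test sets at level `l`. -/
def Xs (k u B p : ℕ) (l : ℕ) (ω : {f : Fin (k * u) → ZMod p // ∑ v, f v ≠ 0}) :
    Set ((Fin B → Bool) × Finset (Fin (k * u))) :=
  {e | e.1 = lev B l ∧ zeros ω.1 e.2}

/-- The positive test sets at level `l`. -/
def Ys (k u B : ℕ) (l : ℕ) (π : Equiv.Perm (Fin (k * u))) :
    Set ((Fin B → Bool) × Finset (Fin (k * u))) :=
  {e | e.1 = lev B l ∧ classes (col k u ∘ π) e.2}

theorem yes_part (hk : 2 ≤ k) (hh : h = u + (2 * B + 2))
    (φ : (Fin (k * u) ⊕ TagPt k B) ≃ Fin (k * h)) (l : ℕ)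
    (S : Set ((Fin B → Bool) × Finset (Fin (k * u)))) (π : Equiv.Perm (Fin (k * u))) :
    ∃ y : Fin (k * h) → Fin k, IsPart h (fam φ (S ∪ Ys k u B l π)) y := by
  classical
  apply part_of_level hk hh φ (i := lev B l) (y := col k u ∘ π)
  intro j
  refine ⟨univ.filter fun v => (col k u ∘ π) v = j, Or.inr ⟨rfl, j, fun v => ?_⟩,
    SetCoverMono.card_col_perm k u π j, fun v => ?_⟩
  · simp
  · simp

theorem no_part (hk : 2 ≤ k) [Nonempty {f : Fin (k * u) → ZMod p // ∑ v, f v ≠ 0}]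
    (φ : (Fin (k * u) ⊕ TagPt k B) ≃ Fin (k * h)) {l : ℕ} (hl : l ≤ 2 ^ B)
    {S : Set ((Fin B → Bool) × Finset (Fin (k * u)))} (hS : Reach (Xs k u B p) l S) :
    ¬ ∃ y : Fin (k * h) → Fin k, IsPart h (fam φ S) y := by
  classical
  rintro ⟨y', hy'⟩
  obtain ⟨i, y, hy⟩ := level_of_part hk φ hy'
  obtain ⟨ω, hω⟩ := reach_spec hS
  choose A hA1 hA2 hA3 using hy
  have h1 : ∀ j, ∃ l' < l, i = lev B l' ∧ zeros (ω l').1 (A j) := fun j => hω _ (hA1 j)
  choose g hg1 hg2 hg3 using h1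
  have hg : ∀ j j', g j = g j' := fun j j' =>
    lev_inj ((hg1 j).trans_le hl) ((hg1 j').trans_le hl) ((hg2 j).symm.trans (hg2 j'))
  have hk0 : 0 < k := by omega
  apply (ω (g ⟨0, hk0⟩)).2
  rw [← sum_fiberwise univ y]
  apply sum_eq_zero
  intro j _
  have h2 := hg3 j
  rw [hg j ⟨0, hk0⟩] at h2
  have h3 : (univ.filter fun v => y v = j) = A j := by
    ext v
    simp [hA3]
  rw [h3]
  exact h2

theorem main_k {k : ℕ} (hk : 2 ≤ k) {ε : ℝ} (hε : 0 < ε) : ∃ δ : ℝ, 0 < δ ∧ ∃ h₀ : ℕ, ∀ h ≥ h₀,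
    ∀ n, k * h ≤ n → ∀ (s t w : ℕ) (γ : ℝ), 0 < γ →
      ((w : ℝ) + 1) * 2 ^ t ≤ γ * 2 ^ (δ * (k * h : ℕ)) →
      HasRandomCircuit (n.choose h) n k s t w γ → (2 : ℝ) ^ ((1 - ε) * (k * h : ℕ)) ≤ s := by
  classical
  -- without loss of generality `ε ≤ 1`
  wlog hε1 : ε ≤ 1 with hwlog
  · obtain ⟨δ, hδ, h₀, h1⟩ := hwlog hk (zero_lt_one' ℝ) le_rfl
    refine ⟨δ, hδ, h₀, fun h hh n hn s t w γ hγ hw hC => ?_⟩
    refine le_trans ?_ (h1 h hh n hn s t w γ hγ hw hC)
    apply Real.rpow_le_rpow_of_exponent_le (by norm_num)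
    apply mul_le_mul_of_nonneg_right _ (Nat.cast_nonneg _)
    linarith
  obtain ⟨p, hp, u₀, hu₀, hcore⟩ := SetCoverMono.core_ineq hk (half_pos hε)
  have hk0 : (0 : ℝ) < k := by
    have : 0 < k := by omega
    exact_mod_cast this
  have hk1 : (1 : ℝ) ≤ k := by
    have : 1 ≤ k := by omega
    exact_mod_cast this
  obtain ⟨h₁, hh₁⟩ := exists_nat_ge (64 / ε)
  refine ⟨ε / 16 / (2 * k), by positivity, h₁ + 4 * u₀ + 16, ?_⟩
  intro h hh n hn s t w γ hγ hw hC
  by_contra hcon
  rw [not_le] at hcon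
  have hhε : 64 ≤ ε * h := by
    have h1 : (h₁ : ℝ) ≤ h := by
      have : h₁ ≤ h := by omega
      exact_mod_cast this
    have h2 : 64 / ε ≤ h := hh₁.trans h1
    rw [div_le_iff₀ hε] at h2
    linarith
  have hh16 : (16 : ℝ) ≤ h := by
    have : 16 ≤ h := by omega
    exact_mod_cast this
  -- the number of levels
  obtain ⟨B, hB⟩ : ∃ B : ℕ, B = ⌊ε / 16 * h⌋₊ := ⟨_, rfl⟩
  have hB1 : (B : ℝ) ≤ ε / 16 * h := by
    rw [hB]; exact Nat.floor_le (by positivity)
  have hB2 : ε / 16 * h < B + 1 := by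
    rw [hB]; exact Nat.lt_floor_add_one _
  have hBh : (B : ℝ) ≤ h / 16 := by nlinarith
  have hle : 2 * B + 2 ≤ h := by
    have : (2 * (B : ℝ) + 2) ≤ h := by linarith
    exact_mod_cast this
  obtain ⟨u, hu⟩ : ∃ u, h = u + (2 * B + 2) := ⟨h - (2 * B + 2), by omega⟩
  have hur : (u : ℝ) = h - (2 * B + 2) := by
    rw [hu]; push_cast; ring
  have hu0 : u₀ ≤ u := by
    have h1 : (4 * (u₀ : ℝ) + 16) ≤ h := by
      have : 4 * u₀ + 16 ≤ h := by omega
      exact_mod_cast this
    have h2 : (u₀ : ℝ) ≤ u := by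
      rw [hur]
      have : (0 : ℝ) ≤ u₀ := Nat.cast_nonneg _
      linarith
    exact_mod_cast h2
  have hku : 0 < k * u := Nat.mul_pos (by omega) (by omega)
  obtain ⟨φ⟩ := exists_equiv (k := k) hu
  obtain ⟨Γ, hlit, hiff⟩ := embed_iff (k := k) (h := h) (by omega) (by omega) hn
  obtain ⟨M, P, C, o, hP0, hP1, hCs, hyes, hno⟩ := hC
  have hΩ : Nonempty {f : Fin (k * u) → ZMod p // ∑ v, f v ≠ 0} := by
    rw [← Fintype.card_pos_iff]
    have h1 := SetCoverMono.card_nonzero (p := p) hku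
    have h2 : 0 < p ^ (k * u) := pow_pos hp.out.pos _
    omega
  obtain ⟨a, ha⟩ : ∃ a : Set ((Fin B → Bool) × Finset (Fin (k * u))) →
      Fin (n.choose h) × Fin n → Prop, a = fun S q => Γ (fam φ S) q.1 q.2 := ⟨_, rfl⟩
  -- every input is constant or a membership
  have halit : ∀ q, (∀ S, ¬ a S q) ∨ ∃ (i : Fin B → Bool) (A : Finset (Fin (k * u))),
      A.card = u ∧ ∀ S, a S q ↔ (i, A) ∈ S := by
    intro q
    rw [ha]
    rcases hlit q.1 q.2 with h1 | ⟨H, -, h1⟩
    · exact Or.inl fun S => h1 _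
    · rcases fam_lit hk φ H with h2 | ⟨i, A, hA, h2⟩
      · exact Or.inl fun S hS => h2 S ((h1 _).1 hS)
      · exact Or.inr ⟨i, A, hA, fun S => (h1 _).trans (h2 S)⟩
  have hamono : ∀ S S' : Set ((Fin B → Bool) × Finset (Fin (k * u))), S ⊆ S' →
      ∀ v, a S v → a S' v := by
    intro S S' hS q hq
    rcases halit q with h1 | ⟨i, A, -, h1⟩
    · exact absurd hq (h1 S)
    · exact (h1 S').2 (hS ((h1 S).1 hq))
  obtain ⟨e, he⟩ : ∃ e : ℝ, e = s * (2 : ℝ) ^ (-((1 - ε / 2) * (k * u : ℕ))) +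
    (2 : ℝ) ^ (-((u : ℝ) / 4)) := ⟨_, rfl⟩
  have he0 : 0 ≤ e := by rw [he]; positivity
  have hmono : ∀ j, ∀ l < 2 ^ B, ∀ (β : ℕ → Prop) (i : ℕ), i ≤ o j →
      ∀ G : Set ((Fin B → Bool) × Finset (Fin (k * u))), Reach (Xs k u B p) l G →
      avg (fun z => ind ((C j).mval β (a (G ∪ Ys k u B l z)) i)) ≤
        avg (fun ω => ind ((C j).mval β (a (G ∪ Xs k u B p l ω)) i)) + e := by
    intro j l _ β i hi G _
    have hL : SetCoverMono.IsLit (k * u) u (fun (x : Finset (Fin (k * u)) → Prop) q =>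
        a (G ∪ {e | e.1 = lev B l ∧ x e.2}) q) := by
      intro q
      rcases halit q with h1 | ⟨i', A, hA, h1⟩
      · exact Or.inr (Or.inl fun x => h1 _)
      · by_cases hG : (i', A) ∈ G
        · exact Or.inl fun x => (h1 _).2 (Or.inl hG)
        · by_cases hi' : i' = lev B l
          · refine Or.inr (Or.inr ⟨A, hA, fun x => (h1 _).trans ?_⟩)
            constructor
            · rintro (h2 | h2)
              · exact absurd h2 hG
              · exact h2.2
            · exact fun h2 => Or.inr ⟨hi', h2⟩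
          · refine Or.inr (Or.inl fun x hx => ?_)
            rcases (h1 _).1 hx with h2 | h2
            · exact hG h2
            · exact hi' h2.1
    have h1 := hcore u hu0 (col k u) (SetCoverMono.card_col k u) _ _ hL (fixC (C j) β) i (i + 1)
      (Nat.lt_succ_self i)
    simp only [fixC_val] at h1
    have h2 : ((fixC (C j) β).numAnd (i + 1) : ℝ) ≤ s := by
      exact_mod_cast (fixC_numAnd (C j) β hi).trans (hCs j).1
    have h3 : ((fixC (C j) β).numAnd (i + 1) : ℝ) * (2 : ℝ) ^ (-((1 - ε / 2) * (k * u : ℕ))) +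
        (2 : ℝ) ^ (-((u : ℝ) / 4)) ≤ e := by
      rw [he]
      gcongr
    exact h1.trans (add_le_add_right h3 _)
  have hcast : ∀ S : Set ((Fin B → Bool) × Finset (Fin (k * u))),
      (fun q : Fin (n.choose h) × Fin n => Γ (fam φ S) q.1 q.2) = a S := fun S => by rw [ha]
  have hmain := rand_bound (X := Xs k u B p) (Y := Ys k u B) (m := 2 ^ B) (δ := γ)
    (W := γ * 2 ^ (ε / 16 / (2 * k) * (k * h : ℕ))) he0 hamono hP0 hP1
    (fun j => by
      refine le_trans ?_ hw
      have h1 : ((C j).numWires (o j) + 1) * 2 ^ (C j).numOther (o j) ≤ (w + 1) * 2 ^ t :=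
        Nat.mul_le_mul (Nat.add_le_add_right (hCs j).2.2 1)
          (Nat.pow_le_pow_right (by norm_num) (hCs j).2.1)
      exact_mod_cast h1)
    hmono
    (fun l _ S z _ => by
      have h1 := hyes (Γ (fam φ (S ∪ Ys k u B l z))) ((hiff _).2 (yes_part hk hu φ l S z))
      rw [hcast] at h1
      exact h1)
    (fun l hl S hS => by
      have h1 := hno (Γ (fam φ S)) (fun hc => no_part hk φ hl.le hS ((hiff _).1 hc))
      rw [hcast] at h1
      exact h1)
  -- numerics
  have two_pos : (0 : ℝ) < 2 := by norm_num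
  have hMB : (2 : ℝ) ^ B = 2 ^ (B : ℝ) := (Real.rpow_natCast 2 B).symm
  have hbig1 : (2 : ℝ) ^ (B : ℝ) * (s * (2 : ℝ) ^ (-((1 - ε / 2) * (k * u : ℕ)))) ≤ 1 := by
    calc (2 : ℝ) ^ (B : ℝ) * (s * (2 : ℝ) ^ (-((1 - ε / 2) * (k * u : ℕ))))
        ≤ (2 : ℝ) ^ (B : ℝ) * ((2 : ℝ) ^ ((1 - ε) * (k * h : ℕ)) *
            (2 : ℝ) ^ (-((1 - ε / 2) * (k * u : ℕ)))) := by
          have := hcon.le
          gcongr
      _ = (2 : ℝ) ^ ((B : ℝ) + ((1 - ε) * (k * h : ℕ) + -((1 - ε / 2) * (k * u : ℕ)))) := by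
          rw [← Real.rpow_add two_pos, ← Real.rpow_add two_pos]
      _ ≤ 1 := by
          apply Real.rpow_le_one_of_one_le_of_nonpos (by norm_num)
          push_cast
          rw [hur]
          have h1 : (0 : ℝ) ≤ h := Nat.cast_nonneg _
          have h2 : (0 : ℝ) ≤ 1 - ε / 2 := by linarith
          have h3 : (1 - ε / 2) * (k * (h - (2 * B + 2))) ≥
              (1 - ε / 2) * (k * (h - (ε / 8 * h + 2))) := by
            apply mul_le_mul_of_nonneg_left _ h2
            apply mul_le_mul_of_nonneg_left _ hk0.le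
            linarith
          have h4 : (1 - ε / 2) * (k * (h - (ε / 8 * h + 2))) ≥
              k * ((1 - ε / 2 - ε / 8) * h - 2) := by
            have h5 : (1 - ε / 2) * (k * (h - (ε / 8 * h + 2))) -
                k * ((1 - ε / 2 - ε / 8) * h - 2) = k * (ε / 2 * (ε / 8) * h + ε) := by ring
            have h6 : 0 ≤ k * (ε / 2 * (ε / 8) * h + ε) := by positivity
            linarith
          have h7 : (B : ℝ) + (1 - ε) * (k * h) - k * ((1 - ε / 2 - ε / 8) * h - 2) ≤
              ε / 16 * h - k * (3 * ε / 8 * h - 2) := by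
            have : (1 - ε) * (k * h) - k * ((1 - ε / 2 - ε / 8) * h - 2) =
              - (k * (3 * ε / 8 * h - 2)) := by ring
            linarith
          have h8 : ε / 16 * h ≤ k * (ε / 16 * h) := by
            have : 0 ≤ ε / 16 * h := by positivity
            nlinarith
          have h9 : k * (ε / 16 * h) - k * (3 * ε / 8 * h - 2) = k * (2 - 5 / 16 * (ε * h)) := by
            ring
          have h10 : k * (2 - 5 / 16 * (ε * h)) ≤ 0 := by
            apply mul_nonpos_of_nonneg_of_nonpos hk0.le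
            linarith
          linarith
  have hbig2 : (2 : ℝ) ^ (B : ℝ) * (2 : ℝ) ^ (-((u : ℝ) / 4)) ≤ 1 := by
    rw [← Real.rpow_add two_pos]
    apply Real.rpow_le_one_of_one_le_of_nonpos (by norm_num)
    rw [hur]
    linarith
  have hme : ((2 ^ B : ℕ) : ℝ) * e ≤ 2 := by
    push_cast
    rw [hMB, he, mul_add]
    linarith
  have hfin : 2 * γ * ((2 ^ B : ℕ) : ℝ) ≤ γ * 2 ^ (ε / 16 / (2 * k) * (k * h : ℕ)) * 3 := by
    refine hmain.trans ?_
    apply mul_le_mul_of_nonneg_left _ (by positivity)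
    linarith
  have hexp : (2 : ℝ) ^ (ε / 16 / (2 * k) * (k * h : ℕ)) * 4 ≤ (2 : ℝ) ^ (B : ℝ) * 2 := by
    have h4 : (4 : ℝ) = 2 ^ (2 : ℝ) := by norm_num
    have h2 : (2 : ℝ) ^ (B : ℝ) * 2 = 2 ^ ((B : ℝ) + 1) := by
      rw [Real.rpow_add two_pos, Real.rpow_one]
    rw [h2, h4, ← Real.rpow_add two_pos]
    apply Real.rpow_le_rpow_of_exponent_le (by norm_num)
    push_cast
    have h3 : ε / 16 / (2 * k) * (k * h) = ε * h / 32 := by
      field_simp
      ring
    rw [h3]
    linarith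
  push_cast at hfin
  rw [hMB] at hfin
  have hpos : (0 : ℝ) < (2 : ℝ) ^ (ε / 16 / (2 * k) * (k * h : ℕ)) := by positivity
  have hpos' : (0 : ℝ) < γ * (2 : ℝ) ^ (ε / 16 / (2 * k) * (k * h : ℕ)) := by positivity
  have h11 : γ * ((2 : ℝ) ^ (ε / 16 / (2 * k) * (k * h : ℕ)) * 4) ≤
      γ * ((2 : ℝ) ^ (B : ℝ) * 2) := mul_le_mul_of_nonneg_left hexp hγ.le
  push_cast at hpos' h11
  linarith

end Assembly

end AlmostMono
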