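import Pool.Agent.Lib.MP_8fffab_lc_NM.Sep

/-! The lower bound for randomized circuits in abstract form. -/

open Finset FewNeg

namespace AlmostMono

theorem prob_eq {M : ℕ} (p : Fin M → ℝ) (A : Fin M → Prop) :
    Prob p A = ∑ j, p j * ind (A j) := by
  classical
  unfold Prob
  apply sum_congr rfl
  intro j _
  by_cases h : A j
  · rw [if_pos h, ind_true h, mul_one]
  · rw [if_neg h, ind_false h, mul_zero]

theorem prob_le_one {M : ℕ} {p : Fin M → ℝ} (hp : ∀ j, 0 ≤ p j) (hp1 : ∑ j, p j = 1)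
    (A : Fin M → Prop) : Prob p A ≤ 1 := by
  rw [prob_eq, ← hp1]
  apply sum_le_sum
  intro j _
  exact mul_le_of_le_one_right (hp j) (ind_le_one _)

theorem prob_not {M : ℕ} {p : Fin M → ℝ} (hp1 : ∑ j, p j = 1) (A : Fin M → Prop) :
    ∑ j, p j * ind (¬ A j) = 1 - Prob p A := by
  rw [prob_eq, ← hp1, ← sum_sub_distrib]
  apply sum_congr rfl
  intro j _
  rw [ind_not]
  ring

variable {E Ω Z : Type} [Fintype Ω] [Nonempty Ω] [Fintype Z] [Nonempty Z] {X : ℕ → Ω → Set E}

theorem rand_bound {ι : Type} {Y : ℕ → Z → Set E} {e : ℝ} (he : 0 ≤ e)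
    {a : Set E → ι → Prop} (hamono : ∀ S S' : Set E, S ⊆ S' → ∀ v, a S v → a S' v)
    {M : ℕ} {p : Fin M → ℝ} (hp : ∀ j, 0 ≤ p j) (hp1 : ∑ j, p j = 1)
    {C : Fin M → Circuit ι} {o : Fin M → ℕ} {m : ℕ} {W δ : ℝ}
    (hW : ∀ j, ((((C j).numWires (o j) + 1) * 2 ^ (C j).numOther (o j) : ℕ) : ℝ) ≤ W)
    (hmono : ∀ j, ∀ l < m, ∀ (β : ℕ → Prop) (i : ℕ), i ≤ o j → ∀ G : Set E, Reach X l G →
      avg (fun z => ind ((C j).mval β (a (G ∪ Y l z)) i))
        ≤ avg (fun ω => ind ((C j).mval β (a (G ∪ X l ω)) i)) + e)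
    (h1 : ∀ l < m, ∀ S z, Reach X l S →
      1 / 2 + δ ≤ Prob p fun j => (C j).val (a (S ∪ Y l z)) (o j))
    (h0 : ∀ l < m, ∀ S, Reach X l S →
      Prob p (fun j => (C j).val (a S) (o j)) ≤ 1 / 2 - δ) :
    2 * δ * m ≤ W * (1 + m * e) := by
  classical
  obtain ⟨B, hB⟩ : ∃ B : Fin M → ℕ → Set E → ℝ, B = fun j l S => ind ((C j).val (a S) (o j)) +
        avg (fun z => ind (¬ (C j).val (a (S ∪ Y l z)) (o j))) := ⟨_, rfl⟩
  have hchain : ∀ j, (m : ℝ) ≤ (∑ l ∈ range m, Ex X l (B j l)) + W * (1 + m * e) := by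
    intro j
    have h2 := chain_bound (X := X) (Y := Y) he hamono (C j) (o j) m (hmono j)
    have h3 : ((((C j).numWires (o j) + 1) * 2 ^ (C j).numOther (o j) : ℕ) : ℝ) * (1 + m * e) ≤
        W * (1 + m * e) := mul_le_mul_of_nonneg_right (hW j) (by positivity)
    rw [hB]
    linarith
  -- average over the circuits
  have hpt : ∀ l < m, ∀ S : Set E, Reach X l S → (∑ j, p j * B j l S) ≤ 1 - 2 * δ := by
    intro l hl S hS
    have h2 : (∑ j, p j * B j l S) = Prob p (fun j => (C j).val (a S) (o j)) +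
        avg (fun z => 1 - Prob p (fun j => (C j).val (a (S ∪ Y l z)) (o j))) := by
      have h3 : ∀ z, 1 - Prob p (fun j => (C j).val (a (S ∪ Y l z)) (o j)) =
          ∑ j, p j * ind (¬ (C j).val (a (S ∪ Y l z)) (o j)) := fun z => (prob_not hp1 _).symm
      simp only [h3]
      rw [avg_sum univ (fun j z => p j * ind (¬ (C j).val (a (S ∪ Y l z)) (o j))), prob_eq,
        ← sum_add_distrib]
      apply sum_congr rfl
      intro j _
      rw [avg_mul_left, hB]
      ring
    have h5 : avg (fun z => 1 - Prob p (fun j => (C j).val (a (S ∪ Y l z)) (o j))) ≤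
        1 / 2 - δ := by
      calc avg (fun z => 1 - Prob p (fun j => (C j).val (a (S ∪ Y l z)) (o j)))
          ≤ avg (fun _ : Z => 1 / 2 - δ) := by
            apply avg_mono
            intro z
            have := h1 l hl S z hS
            linarith
        _ = 1 / 2 - δ := avg_const _
    have h4 := h0 l hl S hS
    rw [h2]
    linarith
  have hstep : ∀ l < m, ∑ j, p j * Ex X l (B j l) ≤ 1 - 2 * δ := by
    intro l hl
    have h2 : ∑ j, p j * Ex X l (B j l) = Ex X l (fun S => ∑ j, p j * B j l S) := by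
      rw [Ex_sum l univ (fun j S => p j * B j l S)]
      apply sum_congr rfl
      intro j _
      rw [Ex_mul_left l (p j) (B j l)]
    rw [h2]
    exact (Ex_mono l (hpt l hl)).trans (Ex_const _ _).le
  have hsum : (m : ℝ) ≤ m * (1 - 2 * δ) + W * (1 + m * e) := by
    calc (m : ℝ) = ∑ j, p j * (m : ℝ) := by rw [← sum_mul, hp1, one_mul]
      _ ≤ ∑ j, p j * ((∑ l ∈ range m, Ex X l (B j l)) + W * (1 + m * e)) :=
          sum_le_sum fun j _ => mul_le_mul_of_nonneg_left (hchain j) (hp j)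
      _ = (∑ l ∈ range m, ∑ j, p j * Ex X l (B j l)) + W * (1 + m * e) := by
          obtain ⟨V, hV⟩ : ∃ V, V = W * (1 + m * e) := ⟨_, rfl⟩
          rw [← hV]
          simp only [mul_add, sum_add_distrib, mul_sum]
          rw [sum_comm, ← sum_mul, hp1, one_mul]
      _ ≤ (∑ l ∈ range m, (1 - 2 * δ)) + W * (1 + m * e) := by
          have := sum_le_sum fun l hl => hstep l (mem_range.1 hl)
          linarith
      _ = _ := by rw [sum_const, card_range, nsmul_eq_mul]
  linarith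

end AlmostMono
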