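import Mathlib

/-!
# Circuits for Set Cover with few gates other than AND and OR: definitions

An instance consists of `m` subsets of `Fin n`, given by an `m × n` incidence matrix. A circuit
has AND gates of fan-in two, OR gates of arbitrary fan-in, constants and further gates, which
compute arbitrary Boolean functions of any number of gates (for example NOT gates, parities or
thresholds). Its inputs are the entries of the matrix.
-/

open Finset

namespace AlmostMono

/-- A gate which may refer to the gates with numbers `< i`. The gate `or S` is the disjunction of
the gates in `S`; the gate `other r w g` computes the arbitrary Boolean function `g` of the values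
of the `r` gates `w 0, …, w (r - 1)`. -/
inductive Gate (ι : Type) (i : ℕ) : Type
  | input (v : ι)
  | const (b : Bool)
  | and (a b : Fin i)
  | or (S : Finset (Fin i))
  | other (r : ℕ) (w : Fin r → Fin i) (g : (Fin r → Prop) → Prop)

/-- Is the gate an AND gate? -/
def Gate.isAnd {ι : Type} {i : ℕ} : Gate ι i → Bool
  | .and _ _ => true
  | _ => false

/-- Is the gate one of the further gates? -/
def Gate.isOther {ι : Type} {i : ℕ} : Gate ι i → Bool
  | .other _ _ _ => true
  | _ => false

/-- Number of input wires, if the gate is one of the further gates. -/
def Gate.wires {ι : Type} {i : ℕ} : Gate ι i → ℕ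
  | .other r _ _ => r
  | _ => 0

/-- A circuit: gate number `i` refers only to gates with smaller numbers. A circuit with output
gate `o` is given by the gates with numbers `≤ o`; the other ones are irrelevant. -/
abbrev Circuit (ι : Type) := (i : ℕ) → Gate ι i

/-- The value of gate number `i` on the input `x`. -/
def Circuit.val {ι : Type} (C : Circuit ι) (x : ι → Prop) (i : ℕ) : Prop :=
  match C i with
  | .input v => x v
  | .const b => b = true
  | .and a b => C.val x a ∧ C.val x b
  | .or S => ∃ a ∈ S, C.val x a
  | .other _ w g => g fun l => C.val x (w l)
termination_by i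
decreasing_by all_goals exact Fin.isLt _

/-- Number of AND gates among the gates with numbers `≤ o`. -/
def Circuit.numAnd {ι : Type} (C : Circuit ι) (o : ℕ) : ℕ :=
  ((range (o + 1)).filter fun i => (C i).isAnd = true).card

/-- Number of gates other than AND and OR gates among the gates with numbers `≤ o`. -/
def Circuit.numOther {ι : Type} (C : Circuit ι) (o : ℕ) : ℕ :=
  ((range (o + 1)).filter fun i => (C i).isOther = true).card

/-- Number of input wires of these gates altogether. -/
def Circuit.numWires {ι : Type} (C : Circuit ι) (o : ℕ) : ℕ :=
  ∑ i ∈ range (o + 1), (C i).wires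

/-- Probability of the event `A`, where `j` has probability `p j`. -/
noncomputable def Prob {M : ℕ} (p : Fin M → ℝ) (A : Fin M → Prop) : ℝ := by
  classical exact ∑ j, if A j then p j else 0

/-- At most `k` of the `m` sets cover `Fin n`; `a i v` says that the set number `i` contains
`v`. -/
def HasCover {m n : ℕ} (k : ℕ) (a : Fin m → Fin n → Prop) : Prop :=
  ∃ I : Finset (Fin m), I.card ≤ k ∧ ∀ v, ∃ i ∈ I, a i v

/-- There is a randomized circuit (a probability distribution `p` on circuits `C j` with output
gates `o j`) with at most `s` AND gates, any number of OR gates and at most `t` other gates, these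
having at most `w` input wires altogether, which decides with error probability at most
`1 / 2 - δ`, given `m` subsets of `Fin n`, whether at most `k` of them cover `Fin n`. The inputs
of the circuits are the `m * n` entries of the incidence matrix. -/
def HasRandomCircuit (m n k s t w : ℕ) (δ : ℝ) : Prop :=
  ∃ (M : ℕ) (p : Fin M → ℝ) (C : Fin M → Circuit (Fin m × Fin n)) (o : Fin M → ℕ),
    (∀ j, 0 ≤ p j) ∧ ∑ j, p j = 1 ∧
    (∀ j, (C j).numAnd (o j) ≤ s ∧ (C j).numOther (o j) ≤ t ∧ (C j).numWires (o j) ≤ w) ∧
    (∀ a : Fin m → Fin n → Prop, HasCover k a →
      1 / 2 + δ ≤ Prob p fun j => (C j).val (fun e => a e.1 e.2) (o j)) ∧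
    (∀ a : Fin m → Fin n → Prop, ¬ HasCover k a →
      Prob p (fun j => (C j).val (fun e => a e.1 e.2) (o j)) ≤ 1 / 2 - δ)

end AlmostMono
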