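import Pool.Agent.Lib.MP_8fffab_lc_NM.Main

/-! The form with the bound `b ^ n` times a power of the size of the instance. -/

open Finset

namespace AlmostMono

theorem main_b (b : ℝ) (hb0 : 0 ≤ b) (hb : b < 2) (c : ℕ) : ∃ k₀ : ℕ, ∀ k ≥ k₀, ∃ δ : ℝ, 0 < δ ∧
    ∃ n₀ : ℕ, ∀ n ≥ n₀, ∀ (s t w : ℕ) (γ : ℝ), 0 < γ →
      ((w : ℝ) + 1) * 2 ^ t ≤ γ * 2 ^ (δ * n) →
      HasRandomCircuit (n.choose (n / k)) n k s t w γ →
        b ^ n * ((n.choose (n / k) : ℝ) * n) ^ c ≤ s := by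
  obtain ⟨η, hη, k₀, hk₀, hnum⟩ := SetCoverMono.num_bound b hb hb0 c
  refine ⟨k₀, fun k hk => ?_⟩
  obtain ⟨n₁, hn₁⟩ := hnum k hk
  have hk2 : 2 ≤ k := hk₀.trans hk
  obtain ⟨δ, hδ, h₀, hmain⟩ := main_k hk2 hη
  refine ⟨δ / 2, by positivity, n₁ + k * h₀ + 2 * k, ?_⟩
  intro n hn s t w γ hγ hw hC
  have hkpos : 0 < k := by omega
  have h3 : h₀ ≤ n / k := (Nat.le_div_iff_mul_le hkpos).2 (by rw [mul_comm]; omega)
  have h4 : k * (n / k) ≤ n := Nat.mul_div_le n k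
  have h5 : n ≤ 2 * (k * (n / k)) := by
    have h6 : n < k * (n / k) + k := by
      have := Nat.lt_mul_div_succ n hkpos
      linarith [Nat.mul_succ k (n / k)]
    omega
  have h6 := hmain (n / k) h3 n h4 s t w γ hγ (by
    refine hw.trans ?_
    apply mul_le_mul_of_nonneg_left _ hγ.le
    apply Real.rpow_le_rpow_of_exponent_le (by norm_num)
    have h7 : (n : ℝ) ≤ 2 * (k * (n / k : ℕ) : ℕ) := by exact_mod_cast h5
    calc δ / 2 * n ≤ δ / 2 * (2 * (k * (n / k : ℕ) : ℕ)) :=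
          mul_le_mul_of_nonneg_left h7 (by positivity)
      _ = δ * (k * (n / k : ℕ) : ℕ) := by ring) hC
  refine (hn₁ n (by omega)).trans ?_
  push_cast at h6 ⊢
  exact h6

end AlmostMono
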