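import Pool.Agent.Lib.MP_8fffab_lc_MC.Out
import Pool.Agent.Lib.MP_678664_lc_FN.Basic

/-! Small monotone circuits cannot tell random partitions from random sum-zero families. -/

open Finset FewNeg

namespace SetCoverMono

theorem two_pow_le_choose (m n : ℕ) (h : 2 * m ≤ n) : 2 ^ m ≤ n.choose m := by
  refine le_trans ?_ (Nat.choose_le_choose m h)
  have key : ∀ m : ℕ, 2 ^ m ≤ m.centralBinom := by
    intro m
    induction m with
    | zero => simp
    | succ m ih =>
      have h1 := Nat.succ_mul_centralBinom_succ m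
      have h2 : (m + 1) * 2 ^ (m + 1) ≤ (m + 1) * (m + 1).centralBinom := by
        rw [h1, pow_succ]
        calc (m + 1) * (2 ^ m * 2) = 2 * (m + 1) * 2 ^ m := by ring
          _ ≤ 2 * (2 * m + 1) * m.centralBinom := Nat.mul_le_mul (by omega) ih
      exact Nat.le_of_mul_le_mul_left h2 (Nat.succ_pos m)
  exact key m

/-- A fixed set is rarely a union of colour classes. -/
theorem count_union {n k h : ℕ} (y₀ : Fin n → Fin k)
    (hy₀ : ∀ j, (univ.filter fun v => y₀ v = j).card = h) (S : Finset (Fin n))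
    (hS : S.Nonempty) (hS2 : 2 * S.card ≤ n)
    [DecidablePred fun π : Equiv.Perm (Fin n) => ∀ u v, y₀ (π u) = y₀ (π v) → (u ∈ S ↔ v ∈ S)] :
    2 ^ h * (univ.filter fun π : Equiv.Perm (Fin n) =>
      ∀ u v, y₀ (π u) = y₀ (π v) → (u ∈ S ↔ v ∈ S)).card ≤ 2 ^ k * n.factorial := by
  classical
  rcases (univ.filter fun π : Equiv.Perm (Fin n) =>
      ∀ u v, y₀ (π u) = y₀ (π v) → (u ∈ S ↔ v ∈ S)).eq_empty_or_nonempty with he | ⟨π₀, hπ₀⟩
  · rw [he]; simp
  have hSh : h ≤ S.card := by
    obtain ⟨u, hu⟩ := hS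
    rw [← hy₀ (y₀ (π₀ u)), ← card_map (π₀⁻¹ : Equiv.Perm (Fin n)).toEmbedding]
    apply card_le_card
    intro v hv
    rw [mem_map] at hv
    obtain ⟨w, hw, rfl⟩ := hv
    rw [mem_filter] at hw hπ₀
    refine (hπ₀.2 u _ ?_).1 hu
    have h3 : π₀ (π₀⁻¹ w) = w := by simp
    change y₀ (π₀ u) = y₀ (π₀ (π₀⁻¹ w))
    rw [h3, hw.2]
  have hsub : (univ.filter fun π : Equiv.Perm (Fin n) =>
      ∀ u v, y₀ (π u) = y₀ (π v) → (u ∈ S ↔ v ∈ S)) ⊆
      (univ : Finset (Fin k → Bool)).biUnion fun τ =>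
        univ.filter fun π : Equiv.Perm (Fin n) => ∀ u, decide (u ∈ S) = (τ ∘ y₀) (π u) := by
    intro π hπ
    simp only [mem_filter, mem_univ, true_and] at hπ
    rw [mem_biUnion]
    refine ⟨fun c => decide (∃ u, y₀ (π u) = c ∧ u ∈ S), mem_univ _, ?_⟩
    rw [mem_filter]
    refine ⟨mem_univ _, fun u => ?_⟩
    simp only [Function.comp_apply, decide_eq_decide]
    constructor
    · exact fun hu => ⟨u, rfl, hu⟩
    · rintro ⟨v, hv, hvS⟩
      exact (hπ v u hv).1 hvS
  have hone : ∀ τ : Fin k → Bool, (univ.filter fun π : Equiv.Perm (Fin n) =>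
      ∀ u, decide (u ∈ S) = (τ ∘ y₀) (π u)).card ≤ S.card.factorial * (n - S.card).factorial := by
    intro τ
    refine (ModP.card_carry (fun u => decide (u ∈ S)) (τ ∘ y₀)).trans ?_
    rw [Fintype.prod_bool]
    have e1 : Fintype.card {a : Fin n // decide (a ∈ S) = true} = S.card := by
      rw [Fintype.card_subtype]
      congr 1
      ext u
      simp
    have e2 : Fintype.card {a : Fin n // decide (a ∈ S) = false} = n - S.card := by
      rw [Fintype.card_subtype]
      have : (univ.filter fun a : Fin n => decide (a ∈ S) = false) = Sᶜ := by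
        ext u
        simp
      rw [this, card_compl, Fintype.card_fin]
    rw [e1, e2]
  have hSn : S.card ≤ n := by omega
  have hch := Nat.choose_mul_factorial_mul_factorial hSn
  calc 2 ^ h * (univ.filter fun π : Equiv.Perm (Fin n) =>
        ∀ u v, y₀ (π u) = y₀ (π v) → (u ∈ S ↔ v ∈ S)).card
      ≤ 2 ^ h * ∑ τ : Fin k → Bool, (univ.filter fun π : Equiv.Perm (Fin n) =>
        ∀ u, decide (u ∈ S) = (τ ∘ y₀) (π u)).card :=
        Nat.mul_le_mul_left _ ((card_le_card hsub).trans card_biUnion_le)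
    _ ≤ 2 ^ h * ∑ τ : Fin k → Bool, S.card.factorial * (n - S.card).factorial :=
        Nat.mul_le_mul_left _ (sum_le_sum fun τ _ => hone τ)
    _ = 2 ^ k * (2 ^ h * (S.card.factorial * (n - S.card).factorial)) := by
        rw [sum_const, card_univ, Fintype.card_fun, Fintype.card_bool, Fintype.card_fin,
          smul_eq_mul]
        ring
    _ ≤ 2 ^ k * (n.choose S.card * (S.card.factorial * (n - S.card).factorial)) := by
        apply Nat.mul_le_mul_left
        apply Nat.mul_le_mul_right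
        exact (Nat.pow_le_pow_right (by norm_num) hSh).trans (two_pow_le_choose _ _ hS2)
    _ = 2 ^ k * n.factorial := by rw [← hch]; ring

/-- At least half of the functions have nonzero sum. -/
theorem card_nonzero {n p : ℕ} [Fact p.Prime] (hn : 0 < n) :
    p ^ n ≤ 2 * Fintype.card {f : Fin n → ZMod p // ∑ v, f v ≠ 0} := by
  classical
  have h1 : Fintype.card {f : Fin n → ZMod p // ¬ ∑ v, f v ≠ 0} ≤
      Fintype.card {f : Fin n → ZMod p // ∑ v, f v ≠ 0} := by
    refine Fintype.card_le_of_injective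
      (fun f => ⟨f.1 + Pi.single ⟨0, hn⟩ 1, ?_⟩) ?_
    · have h2 : ∑ v, f.1 v = 0 := not_not.1 f.2
      simp only [Pi.add_apply, sum_add_distrib, h2, zero_add]
      rw [Finset.sum_pi_single']
      simp
    · intro f g hfg
      apply Subtype.ext
      have := congrArg Subtype.val hfg
      simpa using this
  have h2 : Fintype.card (Fin n → ZMod p) = Fintype.card {f : Fin n → ZMod p // ∑ v, f v ≠ 0} +
      Fintype.card {f : Fin n → ZMod p // ¬ ∑ v, f v ≠ 0} := by
    rw [← Fintype.card_sum]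
    exact Fintype.card_congr (Equiv.sumCompl _).symm
  rw [Fintype.card_fun, ZMod.card, Fintype.card_fin] at h2
  omega

theorem negSat_top {n p : ℕ} (f : Fin n → ZMod p) : NegSat f (⊤ : Tm n) := by
  rintro w ⟨-, h2⟩
  have : w = 0 := by
    funext u
    exact h2 u trivial
  rw [this, dotProduct_zero]

theorem supp_nonempty {n : ℕ} {b : Tm n} (hb : b ≠ ⊤) : (supp b).Nonempty := by
  by_contra he
  rw [not_nonempty_iff_eq_empty] at he
  apply hb
  have h1 : ∀ x, b.r x none := by
    intro x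
    cases x with
    | none => exact b.refl none
    | some v =>
      by_contra hv
      have := mem_supp.2 hv
      rw [he] at this
      simp at this
  ext x y
  exact ⟨fun _ => trivial, fun _ => b.trans (h1 x) (b.symm (h1 y))⟩

theorem avg_ind {Z : Type} [Fintype Z] (P : Z → Prop) [DecidablePred P] :
    avg (fun z => ind (P z)) = (univ.filter P).card / (Fintype.card Z : ℝ) := by
  unfold avg
  congr 1
  rw [card_filter]
  push_cast
  apply sum_congr rfl
  intro z _
  by_cases h : P z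
  · rw [ind_true h, if_pos h]
  · rw [ind_false h, if_neg h]

/-- Small monotone circuits cannot tell random partitions from random sum-zero families. -/
theorem ineq {p n k h t G κ : ℕ} [Fact p.Prime] (hG : G < 2 * t) (h1 : OneDim p k t G)
    (hκ : 0 < κ) (y₀ : Fin n → Fin k) (hy₀ : ∀ j, (univ.filter fun v => y₀ v = j).card = h)
    (hh : 2 * h ≤ n) (hn : 0 < n) {ι : Type}
    {a : (Finset (Fin n) → Prop) → ι → Prop} (ha : IsLit n h a) (C : Circuit ι) {o s : ℕ}
    (ho : o < s) :
    avg (fun π : Equiv.Perm (Fin n) => ind (C.val (a (classes (y₀ ∘ π))) o)) ≤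
      avg (fun f : {f : Fin n → ZMod p // ∑ v, f v ≠ 0} => ind (C.val (a (zeros f.1)) o)) +
      (C.numAnd s * (κ ^ k * κ ^ k * (3 ^ k * (n + 1)) / 2 ^ n) + κ ^ k * (2 ^ k / 2 ^ h) +
        (2 * C.numAnd s + 1) * (2 * ((k + 1) ^ (n + 1) * p ^ (k * (2 * t + 1))) / κ ^ G)) := by
  classical
  obtain ⟨A, Bp, Bn, hA, hBp, hBn, hP, hN⟩ := approx_out hG h1 hκ y₀ hh ha C ho
  obtain ⟨A', hAA', hcl, F, hF, hFA⟩ := exists_cl (p := p) (t := t) (G := G) (κ := κ) y₀ hA
  have hp0 : 0 < p := (Fact.out : p.Prime).pos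
  have hκ' : (0 : ℝ) < (κ : ℝ) ^ G := by positivity
  have hp' : (0 : ℝ) < (p : ℝ) ^ n := by positivity
  have hΩ := card_nonzero (p := p) hn
  have hΩ' : ((p : ℝ) ^ n) ≤ 2 * Fintype.card {f : Fin n → ZMod p // ∑ v, f v ≠ 0} := by
    exact_mod_cast hΩ
  have hΩ0 : (0 : ℝ) < Fintype.card {f : Fin n → ZMod p // ∑ v, f v ≠ 0} := by linarith
  have hx1 : (0 : ℝ) ≤ C.numAnd s * (κ ^ k * κ ^ k * (3 ^ k * (n + 1)) / 2 ^ n) := by positivity
  have hx2 : (0 : ℝ) ≤ κ ^ k * (2 ^ k / 2 ^ h) := by positivity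
  have hx3 : (0 : ℝ) ≤ (2 * C.numAnd s + 1) *
      (2 * ((k + 1) ^ (n + 1) * p ^ (k * (2 * t + 1))) / κ ^ G) := by positivity
  by_cases htop : (⊤ : Tm n) ∈ A'
  · -- almost all negative inputs are accepted
    have hle1 : avg (fun π : Equiv.Perm (Fin n) => ind (C.val (a (classes (y₀ ∘ π))) o)) ≤ 1 :=
      avg_le_one fun _ => ind_le_one _
    have hbad : ((univ.filter fun f : {f : Fin n → ZMod p // ∑ v, f v ≠ 0} =>
        ¬ C.val (a (zeros f.1)) o).card : ℝ) ≤ (F ∪ Bn).card := by
      have : (univ.filter fun f : {f : Fin n → ZMod p // ∑ v, f v ≠ 0} =>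
        ¬ C.val (a (zeros f.1)) o).card ≤ (F ∪ Bn).card := by
        refine card_le_card_of_injOn (fun f => f.1) ?_ (fun f _ g _ h => Subtype.ext h)
        intro f hf
        rw [mem_coe, mem_filter] at hf
        rw [mem_coe, mem_union]
        rcases hFA f.1 ⟨⊤, htop, negSat_top _⟩ with h2 | h2
        · exact Or.inl h2
        · rcases hN f.1 h2 with h3 | h3
          · exact Or.inr h3
          · exact absurd h3 hf.2
      exact_mod_cast this
    have hFB : ((F ∪ Bn).card : ℝ) * κ ^ G ≤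
        (2 * C.numAnd s + 1) * ((k + 1) ^ (n + 1) * p ^ (n + k * (2 * t + 1))) := by
      have h2 : ((F ∪ Bn).card : ℝ) ≤ F.card + Bn.card := by exact_mod_cast card_union_le _ _
      have h3 : (κ : ℝ) ^ G * F.card ≤ (k + 1) ^ (n + 1) * p ^ (n + k * (2 * t + 1)) := by
        exact_mod_cast hF
      have h4 : (κ : ℝ) ^ G * Bn.card ≤
          C.numAnd s * (2 * ((k + 1) ^ (n + 1) * p ^ (n + k * (2 * t + 1)))) := by
        exact_mod_cast hBn
      calc ((F ∪ Bn).card : ℝ) * κ ^ G ≤ (F.card + Bn.card) * κ ^ G :=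
            mul_le_mul_of_nonneg_right h2 hκ'.le
        _ = κ ^ G * F.card + κ ^ G * Bn.card := by ring
        _ ≤ _ := add_le_add h3 h4
        _ = _ := by ring
    have hval : avg (fun f : {f : Fin n → ZMod p // ∑ v, f v ≠ 0} =>
        ind (C.val (a (zeros f.1)) o)) = 1 - (univ.filter fun f :
          {f : Fin n → ZMod p // ∑ v, f v ≠ 0} => ¬ C.val (a (zeros f.1)) o).card /
          (Fintype.card {f : Fin n → ZMod p // ∑ v, f v ≠ 0} : ℝ) := by
      rw [← avg_ind]
      have : Nonempty {f : Fin n → ZMod p // ∑ v, f v ≠ 0} := by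
        rw [← Fintype.card_pos_iff]
        exact_mod_cast hΩ0
      have h2 : avg (fun _ : {f : Fin n → ZMod p // ∑ v, f v ≠ 0} => (1 : ℝ)) = 1 := avg_const 1
      rw [← h2, ← avg_sub]
      congr 1
      funext f
      rw [ind_not]
      ring
    have hfrac : ((univ.filter fun f : {f : Fin n → ZMod p // ∑ v, f v ≠ 0} =>
        ¬ C.val (a (zeros f.1)) o).card : ℝ) /
          (Fintype.card {f : Fin n → ZMod p // ∑ v, f v ≠ 0} : ℝ) ≤
        (2 * C.numAnd s + 1) * (2 * ((k + 1) ^ (n + 1) * p ^ (k * (2 * t + 1))) / κ ^ G) := by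
      rw [div_le_iff₀ hΩ0]
      have h2 : (2 * C.numAnd s + 1) * (2 * ((k + 1) ^ (n + 1) * p ^ (k * (2 * t + 1))) / κ ^ G) *
          (Fintype.card {f : Fin n → ZMod p // ∑ v, f v ≠ 0} : ℝ) ≥
          (2 * C.numAnd s + 1) * (2 * ((k + 1) ^ (n + 1) * p ^ (k * (2 * t + 1))) / κ ^ G) *
          ((p : ℝ) ^ n / 2) := mul_le_mul_of_nonneg_left (by linarith) hx3
      refine le_trans ?_ h2
      refine hbad.trans ?_
      have h3 : (2 * C.numAnd s + 1) *
          (2 * ((k + 1) ^ (n + 1) * p ^ (k * (2 * t + 1))) / κ ^ G) * ((p : ℝ) ^ n / 2) =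
          (2 * C.numAnd s + 1) * ((k + 1) ^ (n + 1) * p ^ (n + k * (2 * t + 1))) / κ ^ G := by
        have hpa : (p : ℝ) ^ (n + k * (2 * t + 1)) = p ^ n * p ^ (k * (2 * t + 1)) :=
          pow_add _ _ _
        rw [hpa]
        field_simp
      rw [h3, le_div_iff₀ hκ']
      exact hFB
    linarith
  · -- only few positive inputs are accepted
    have hm : (minT A').card ≤ κ ^ k := by
      refine min_card hG h1 hκ (fun b hb b' h => terms_up hb h) (fun b hb => ?_) hcl
      obtain ⟨⟨π, hπ⟩, _⟩ := mem_terms.1 hb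
      exact ⟨_, hπ⟩
    have hcnt : ∀ b ∈ minT A', 2 ^ h * (univ.filter fun π : Equiv.Perm (Fin n) =>
        PosSat (y₀ ∘ π) b).card ≤ 2 ^ k * n.factorial := by
      intro b hb
      have hb' := (mem_minT.1 hb).1
      have hne : b ≠ ⊤ := fun he => htop (he ▸ hb')
      refine le_trans (Nat.mul_le_mul_left _ (card_le_card ?_))
        (count_union y₀ hy₀ (supp b) (supp_nonempty hne) (mem_terms.1 (hcl.1 hb')).2)
      intro π hπ
      rw [mem_filter] at hπ ⊢
      refine ⟨mem_univ _, fun u v huv => ?_⟩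
      have h3 : b.r (some u) (some v) := hπ.2 u v huv
      rw [mem_supp, mem_supp]
      exact not_congr ⟨fun h => b.trans (b.symm h3) h, fun h => b.trans h3 h⟩
    have hsub : (univ.filter fun π : Equiv.Perm (Fin n) =>
        C.val (a (classes (y₀ ∘ π))) o) ⊆ Bp ∪ (minT A').biUnion fun b =>
          univ.filter fun π : Equiv.Perm (Fin n) => PosSat (y₀ ∘ π) b := by
      intro π hπ
      rw [mem_filter] at hπ
      rw [mem_union, mem_biUnion]
      rcases hP π hπ.2 with h2 | ⟨b, hb, h2⟩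
      · exact Or.inl h2
      · obtain ⟨b', hb', hle⟩ := exists_minT (hAA' hb)
        exact Or.inr ⟨b', hb', by rw [mem_filter]; exact ⟨mem_univ _, h2.mono hle⟩⟩
    have hnf : (0 : ℝ) < n.factorial := by exact_mod_cast Nat.factorial_pos n
    have hcard : ((univ.filter fun π : Equiv.Perm (Fin n) =>
        C.val (a (classes (y₀ ∘ π))) o).card : ℝ) ≤
        (C.numAnd s * (κ ^ k * κ ^ k * (3 ^ k * (n + 1)) / 2 ^ n) + κ ^ k * (2 ^ k / 2 ^ h)) *
          n.factorial := by
      have h2 : ((univ.filter fun π : Equiv.Perm (Fin n) =>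
          C.val (a (classes (y₀ ∘ π))) o).card : ℝ) ≤ Bp.card + ∑ b ∈ minT A',
          ((univ.filter fun π : Equiv.Perm (Fin n) => PosSat (y₀ ∘ π) b).card : ℝ) := by
        have h3 := (card_le_card hsub).trans ((card_union_le _ _).trans
          (Nat.add_le_add_left card_biUnion_le _))
        exact_mod_cast h3
      have h3 : (Bp.card : ℝ) ≤
          C.numAnd s * (κ ^ k * κ ^ k * (3 ^ k * (n + 1)) / 2 ^ n) * n.factorial := by
        have h4 : (2 : ℝ) ^ n * Bp.card ≤
            C.numAnd s * (κ ^ k * κ ^ k * (3 ^ k * (n + 1) * n.factorial)) := by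
          exact_mod_cast hBp
        have h5 : (0 : ℝ) < 2 ^ n := by positivity
        calc (Bp.card : ℝ) = 2 ^ n * Bp.card / 2 ^ n := by field_simp
          _ ≤ C.numAnd s * (κ ^ k * κ ^ k * (3 ^ k * (n + 1) * n.factorial)) / 2 ^ n := by
              gcongr
          _ = _ := by ring
      have h4 : ∑ b ∈ minT A',
          ((univ.filter fun π : Equiv.Perm (Fin n) => PosSat (y₀ ∘ π) b).card : ℝ) ≤
          κ ^ k * (2 ^ k / 2 ^ h) * n.factorial := by
        calc _ ≤ ∑ b ∈ minT A', ((2 : ℝ) ^ k / 2 ^ h) * n.factorial := by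
              apply sum_le_sum
              intro b hb
              have h5 : (2 : ℝ) ^ h * ((univ.filter fun π : Equiv.Perm (Fin n) =>
                PosSat (y₀ ∘ π) b).card : ℝ) ≤ 2 ^ k * n.factorial := by
                exact_mod_cast hcnt b hb
              have h6 : (0 : ℝ) < 2 ^ h := by positivity
              rw [div_mul_eq_mul_div, le_div_iff₀ h6]
              linarith
          _ = (minT A').card * (((2 : ℝ) ^ k / 2 ^ h) * n.factorial) := by
              rw [sum_const, nsmul_eq_mul]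
          _ ≤ (κ : ℝ) ^ k * (((2 : ℝ) ^ k / 2 ^ h) * n.factorial) := by
              apply mul_le_mul_of_nonneg_right _ (by positivity)
              exact_mod_cast hm
          _ = _ := by ring
      rw [add_mul]
      linarith
    have hpos : avg (fun π : Equiv.Perm (Fin n) => ind (C.val (a (classes (y₀ ∘ π))) o)) ≤
        C.numAnd s * (κ ^ k * κ ^ k * (3 ^ k * (n + 1)) / 2 ^ n) + κ ^ k * (2 ^ k / 2 ^ h) := by
      rw [avg_ind, Fintype.card_perm, Fintype.card_fin, div_le_iff₀ hnf]
      exact hcard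
    have hav : 0 ≤ avg (fun f : {f : Fin n → ZMod p // ∑ v, f v ≠ 0} =>
        ind (C.val (a (zeros f.1)) o)) := avg_nonneg fun _ => ind_nonneg _
    linarith

end SetCoverMono
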