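import Pool.Agent.Lib.MP_8fffab_lc_NM.Defs
import Pool.Agent.Lib.MP_678664_lc_FN.Basic

/-! Separation of `x ≤ y` by monotone functions, and the bound for a chain of random sets. -/

open Finset FewNeg

namespace AlmostMono

/-- The value of gate number `i` on the input `x` if every gate `j` other than AND and OR gates
is replaced by the constant `β j`. -/
def Circuit.mval {ι : Type} (C : Circuit ι) (β : ℕ → Prop) (x : ι → Prop) (i : ℕ) : Prop :=
  match C i with
  | .input v => x v
  | .const b => b = true
  | .and a b => C.mval β x a ∧ C.mval β x b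
  | .or S => ∃ a ∈ S, C.mval β x a
  | .other _ _ _ => β i
termination_by i
decreasing_by all_goals exact Fin.isLt _

theorem mval_mono {ι : Type} (C : Circuit ι) (β : ℕ → Prop) {x y : ι → Prop}
    (hxy : ∀ v, x v → y v) (i : ℕ) : C.mval β x i → C.mval β y i := by
  induction i using Nat.strong_induction_on with
  | _ i ih =>
    intro h
    unfold Circuit.mval at h ⊢
    cases hC : C i with
    | input v => rw [hC] at h; exact hxy v h
    | const b => rw [hC] at h; exact h
    | and a b => rw [hC] at h; exact ⟨ih a a.isLt h.1, ih b b.isLt h.2⟩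
    | or S =>
      rw [hC] at h
      obtain ⟨a, ha, h⟩ := h
      exact ⟨a, ha, ih a a.isLt h⟩
    | other r w g => rw [hC] at h; exact h

/-- If the constants are the right ones below `i`, then `mval` is `val`. -/
theorem mval_iff {ι : Type} (C : Circuit ι) (β : ℕ → Prop) (x : ι → Prop) (i : ℕ)
    (h : ∀ j ≤ i, (C j).isOther = true → (β j ↔ C.val x j)) : C.mval β x i ↔ C.val x i := by
  induction i using Nat.strong_induction_on with
  | _ i ih =>
    have ih' : ∀ a : Fin i, C.mval β x a ↔ C.val x a := fun a =>
      ih a a.isLt (fun j hj hn => h j (hj.trans a.isLt.le) hn)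
    cases hC : C i with
    | input v => unfold Circuit.mval Circuit.val; rw [hC]
    | const b => unfold Circuit.mval Circuit.val; rw [hC]
    | and a b =>
      unfold Circuit.mval Circuit.val
      rw [hC]
      exact and_congr (ih' a) (ih' b)
    | or S =>
      unfold Circuit.mval Circuit.val
      rw [hC]
      exact exists_congr fun a => and_congr_right fun _ => ih' a
    | other r w g =>
      have h1 := h i le_rfl (by rw [hC]; rfl)
      unfold Circuit.mval
      rw [hC]
      exact h1

/-- The input gates of a gate of the last kind. -/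
def pre {i : ℕ} {ι : Type} (G : Gate ι i) : Finset ℕ :=
  match G with
  | .other _ w _ => univ.image fun l => (w l : ℕ)
  | _ => ∅

theorem card_pre {i : ℕ} {ι : Type} (G : Gate ι i) : (pre G).card ≤ G.wires := by
  cases G with
  | other r w g =>
    refine (card_image_le).trans ?_
    rw [card_univ, Fintype.card_fin]
    exact le_rfl
  | _ => simp [pre, Gate.wires]

theorem lt_of_mem_pre {i : ℕ} {ι : Type} {G : Gate ι i} {j : ℕ} (h : j ∈ pre G) : j < i := by
  cases G with
  | other r w g =>
    simp only [pre, mem_image, mem_univ, true_and] at h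
    obtain ⟨l, rfl⟩ := h
    exact (w l).isLt
  | _ => simp [pre] at h

/-- If a circuit separates `x ≤ y`, then so does one of `(w + 1) * 2 ^ t` monotone functions. -/
theorem separate {ι : Type} (C : Circuit ι) (o : ℕ) :
    ∃ H : Finset (ℕ × Finset ℕ), H.card ≤ (C.numWires o + 1) * 2 ^ C.numOther o ∧
      (∀ h ∈ H, h.1 ≤ o) ∧
      ∀ x y : ι → Prop, (∀ v, x v → y v) → ¬ C.val x o → C.val y o →
        ∃ h ∈ H, ¬ C.mval (fun j => j ∈ h.2) x h.1 ∧ C.mval (fun j => j ∈ h.2) y h.1 := by
  classical
  set J : Finset ℕ := (range (o + 1)).filter fun i => (C i).isOther = true with hJ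
  have hJc : J.card = C.numOther o := rfl
  refine ⟨(insert o ((range (o + 1)).biUnion fun j => pre (C j))) ×ˢ J.powerset, ?_, ?_, ?_⟩
  · rw [card_product, card_powerset, hJc]
    apply Nat.mul_le_mul_right
    refine (card_insert_le _ _).trans ?_
    apply Nat.add_le_add_right
    refine card_biUnion_le.trans ?_
    exact sum_le_sum fun j _ => card_pre _
  · intro h hh
    rw [mem_product, mem_insert, mem_biUnion] at hh
    rcases hh.1 with h1 | ⟨j, hj, h1⟩
    · rw [h1]
    · exact (lt_of_mem_pre h1).le.trans (Nat.lt_succ_iff.1 (mem_range.1 hj))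
  · intro x y hxy hx hy
    set P : Finset ℕ := J.filter fun j => C.val x j with hP
    have hPJ : P ∈ J.powerset := by rw [mem_powerset]; exact filter_subset _ _
    have hPx : ∀ j ≤ o, (C j).isOther = true → (j ∈ P ↔ C.val x j) := by
      intro j hj hn
      rw [hP, mem_filter, hJ, mem_filter, mem_range]
      exact ⟨fun h => h.2, fun h => ⟨⟨Nat.lt_succ_iff.2 hj, hn⟩, h⟩⟩
    by_cases hall : ∀ j ≤ o, (C j).isOther = true → (C.val x j ↔ C.val y j)
    · refine ⟨(o, P), ?_, ?_, ?_⟩
      · rw [mem_product]; exact ⟨mem_insert_self _ _, hPJ⟩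
      · rw [mval_iff C _ x o (fun j hj hn => hPx j hj hn)]
        exact hx
      · rw [mval_iff C _ y o (fun j hj hn => (hPx j hj hn).trans (hall j hj hn))]
        exact hy
    · have hex : ∃ j, j ≤ o ∧ (C j).isOther = true ∧ ¬ (C.val x j ↔ C.val y j) := by
        by_contra hno
        apply hall
        intro j hj hn
        by_contra h
        exact hno ⟨j, hj, hn, h⟩
      obtain ⟨hj1, hj2, hj3⟩ := Nat.find_spec hex
      have hmin := fun m hm => Nat.find_min hex (m := m) hm
      set j := Nat.find hex with hjdef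
      cases hC : C j with
      | other r w g =>
        have hvx : C.val x j ↔ g fun l => C.val x (w l) := by
          rw [Circuit.val.eq_def, hC]
        have hvy : C.val y j ↔ g fun l => C.val y (w l) := by
          rw [Circuit.val.eq_def, hC]
        have hne : ∃ l, ¬ (C.val x (w l) ↔ C.val y (w l)) := by
          by_contra hno
          push Not at hno
          apply hj3
          rw [hvx, hvy]
          have : (fun l => C.val x (w l)) = fun l => C.val y (w l) :=
            funext fun l => propext (hno l)
          rw [this]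
        obtain ⟨l, hl⟩ := hne
        have haj : (w l : ℕ) < j := (w l).isLt
        have hbelow : ∀ i ≤ (w l : ℕ), (C i).isOther = true → (C.val x i ↔ C.val y i) := by
          intro i hi hn
          by_contra h
          exact hmin i (lt_of_le_of_lt hi haj) ⟨((hi.trans haj.le).trans hj1), hn, h⟩
        have hmx := mval_iff C (fun j => j ∈ P) x (w l)
          (fun i hi hn => hPx i ((hi.trans haj.le).trans hj1) hn)
        have hmy := mval_iff C (fun j => j ∈ P) y (w l)
          (fun i hi hn => (hPx i ((hi.trans haj.le).trans hj1) hn).trans (hbelow i hi hn))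
        have hmono := mval_mono C (fun j => j ∈ P) hxy (w l)
        rw [hmx, hmy] at hmono
        refine ⟨((w l : ℕ), P), ?_, ?_, ?_⟩
        · rw [mem_product]
          refine ⟨mem_insert_of_mem (mem_biUnion.2
            ⟨j, mem_range.2 (Nat.lt_succ_iff.2 hj1), ?_⟩), hPJ⟩
          rw [hC]
          simp only [pre, mem_image, mem_univ, true_and]
          exact ⟨l, rfl⟩
        · change ¬ C.mval (fun j => j ∈ P) x (w l)
          rw [hmx]
          intro h
          exact hl ⟨fun _ => hmono h, fun _ => h⟩
        · change C.mval (fun j => j ∈ P) y (w l)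
          rw [hmy]
          by_contra h
          exact hl ⟨fun h' => absurd (hmono h') h, fun h' => absurd h' h⟩
      | input v => rw [hC] at hj2; exact absurd hj2 (by simp [Gate.isOther])
      | const b => rw [hC] at hj2; exact absurd hj2 (by simp [Gate.isOther])
      | and a b => rw [hC] at hj2; exact absurd hj2 (by simp [Gate.isOther])
      | or S => rw [hC] at hj2; exact absurd hj2 (by simp [Gate.isOther])

/-! ### Chains of random sets -/

section Chain

variable {E Ω Z : Type} [Fintype Ω] [Nonempty Ω] [Fintype Z] [Nonempty Z]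

/-- Expectation of `F` of the union of the first `i` independent random sets `X j ω`. -/
noncomputable def Ex (X : ℕ → Ω → Set E) : ℕ → (Set E → ℝ) → ℝ
  | 0, F => F ∅
  | i + 1, F => Ex X i fun S => avg fun ω => F (S ∪ X i ω)

/-- The possible unions of the first `i` random sets. -/
inductive Reach (X : ℕ → Ω → Set E) : ℕ → Set E → Prop
  | zero : Reach X 0 ∅
  | succ {i : ℕ} {S : Set E} (ω : Ω) : Reach X i S → Reach X (i + 1) (S ∪ X i ω)

variable {X : ℕ → Ω → Set E}

omit [Nonempty Ω] in
theorem Ex_mono (i : ℕ) {F F' : Set E → ℝ} (h : ∀ S, Reach X i S → F S ≤ F' S) :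
    Ex X i F ≤ Ex X i F' := by
  induction i generalizing F F' with
  | zero => exact h ∅ .zero
  | succ i ih => exact ih fun S hS => avg_mono fun ω => h _ (.succ ω hS)

theorem Ex_const (i : ℕ) (c : ℝ) : Ex X i (fun _ => c) = c := by
  induction i with
  | zero => rfl
  | succ i ih =>
    change Ex X i (fun S => avg fun _ : Ω => c) = c
    simp only [avg_const]
    exact ih

omit [Nonempty Ω] in
theorem Ex_add (i : ℕ) (F F' : Set E → ℝ) :
    Ex X i (fun S => F S + F' S) = Ex X i F + Ex X i F' := by
  induction i generalizing F F' with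
  | zero => rfl
  | succ i ih =>
    change Ex X i (fun S => avg fun ω => F (S ∪ X i ω) + F' (S ∪ X i ω)) = _
    simp only [avg_add]
    exact ih _ _

omit [Nonempty Ω] in
theorem Ex_sub (i : ℕ) (F F' : Set E → ℝ) :
    Ex X i (fun S => F S - F' S) = Ex X i F - Ex X i F' := by
  induction i generalizing F F' with
  | zero => rfl
  | succ i ih =>
    change Ex X i (fun S => avg fun ω => F (S ∪ X i ω) - F' (S ∪ X i ω)) = _
    simp only [avg_sub]
    exact ih _ _

omit [Nonempty Ω] in
theorem Ex_mul_left (i : ℕ) (c : ℝ) (F : Set E → ℝ) :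
    Ex X i (fun S => c * F S) = c * Ex X i F := by
  induction i generalizing F with
  | zero => rfl
  | succ i ih =>
    change Ex X i (fun S => avg fun ω => c * F (S ∪ X i ω)) = _
    simp only [avg_mul_left]
    exact ih _

omit [Nonempty Ω] in
theorem Ex_sum (i : ℕ) {α : Type} (s : Finset α) (F : α → Set E → ℝ) :
    Ex X i (fun S => ∑ a ∈ s, F a S) = ∑ a ∈ s, Ex X i (F a) := by
  induction i generalizing F with
  | zero => rfl
  | succ i ih =>
    change Ex X i (fun S => avg fun ω => ∑ a ∈ s, F a (S ∪ X i ω)) = _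
    simp only [avg_sum]
    exact ih _

/-- Chain bound for one circuit: the number of steps is at most the expected number of errors
plus the number of changes of the monotone functions. -/
theorem chain_bound {ι : Type} {Y : ℕ → Z → Set E} {e : ℝ} (he : 0 ≤ e)
    {a : Set E → ι → Prop} (hamono : ∀ S S' : Set E, S ⊆ S' → ∀ v, a S v → a S' v)
    (C : Circuit ι) (o : ℕ) (m : ℕ)
    (hmono : ∀ l < m, ∀ (β : ℕ → Prop) (i : ℕ), i ≤ o → ∀ G : Set E, Reach X l G →
      avg (fun z => ind (C.mval β (a (G ∪ Y l z)) i))
        ≤ avg (fun ω => ind (C.mval β (a (G ∪ X l ω)) i)) + e) :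
    (m : ℝ) ≤ (∑ l ∈ range m, Ex X l (fun S => ind (C.val (a S) o) +
        avg (fun z => ind (¬ C.val (a (S ∪ Y l z)) o)))) +
      ((C.numWires o + 1) * 2 ^ C.numOther o : ℕ) * (1 + m * e) := by
  classical
  obtain ⟨H, hH, hHs, hsep⟩ := separate C o
  obtain ⟨F, hF⟩ : ∃ F : ℕ × Finset ℕ → Set E → ℝ,
    F = fun h S => ind (C.mval (fun j => j ∈ h.2) (a S) h.1) := ⟨_, rfl⟩
  obtain ⟨B, hB⟩ : ∃ B : ℕ → Set E → ℝ, B = fun l S => ind (C.val (a S) o) +
        avg (fun z => ind (¬ C.val (a (S ∪ Y l z)) o)) := ⟨_, rfl⟩
  have hBB : ∀ l, Ex X l (fun S => ind (C.val (a S) o) +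
        avg (fun z => ind (¬ C.val (a (S ∪ Y l z)) o))) = Ex X l (B l) := fun l => by rw [hB]
  simp only [hBB]
  have hFmono : ∀ h S S', S ⊆ S' → F h S ≤ F h S' := fun h S S' hS => by
    rw [hF]; exact ind_mono (mval_mono C _ (hamono S S' hS) h.1)
  -- the pointwise inequality
  have key : ∀ l < m, ∀ S : Set E, Reach X l S →
      (1 : ℝ) ≤ B l S + ∑ h ∈ H, (avg (fun ω => F h (S ∪ X l ω)) - F h S + e) := by
    intro l hl S hS
    have hnn : ∀ h ∈ H, 0 ≤ avg (fun ω => F h (S ∪ X l ω)) - F h S + e := by
      intro h _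
      have : F h S ≤ avg (fun ω => F h (S ∪ X l ω)) := by
        calc F h S = avg (fun _ : Ω => F h S) := (avg_const _).symm
          _ ≤ _ := avg_mono fun ω => hFmono h _ _ Set.subset_union_left
      linarith
    have hsn := sum_nonneg hnn
    have hav : 0 ≤ avg (fun z => ind (¬ C.val (a (S ∪ Y l z)) o)) :=
      avg_nonneg fun _ => ind_nonneg _
    by_cases hv : C.val (a S) o
    · rw [hB]
      simp only
      rw [ind_true hv]
      linarith
    · have h1 : (1 : ℝ) ≤ avg (fun z => ind (¬ C.val (a (S ∪ Y l z)) o)) +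
          ∑ h ∈ H, avg (fun z : Z => ind (¬ C.mval (fun j => j ∈ h.2) (a S) h.1 ∧
            C.mval (fun j => j ∈ h.2) (a (S ∪ Y l z)) h.1)) := by
        rw [← avg_sum, ← avg_add]
        calc (1 : ℝ) = avg (fun _ : Z => (1 : ℝ)) := (avg_const 1).symm
          _ ≤ _ := by
            apply avg_mono
            intro z
            have hs0 : 0 ≤ ∑ h ∈ H, ind (¬ C.mval (fun j => j ∈ h.2) (a S) h.1 ∧
                C.mval (fun j => j ∈ h.2) (a (S ∪ Y l z)) h.1) :=
              sum_nonneg fun h _ => ind_nonneg _
            by_cases hz : C.val (a (S ∪ Y l z)) o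
            · obtain ⟨h, hh, hs⟩ := hsep (a S) (a (S ∪ Y l z))
                (hamono _ _ Set.subset_union_left) hv hz
              have h2 := single_le_sum (f := fun h : ℕ × Finset ℕ =>
                  ind (¬ C.mval (fun j => j ∈ h.2) (a S) h.1 ∧
                    C.mval (fun j => j ∈ h.2) (a (S ∪ Y l z)) h.1))
                  (fun h _ => ind_nonneg _) hh
              rw [ind_true hs] at h2
              have h3 := ind_nonneg (¬ C.val (a (S ∪ Y l z)) o)
              linarith
            · rw [ind_true hz]
              linarith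
      have h2 : ∀ h ∈ H, avg (fun z : Z => ind (¬ C.mval (fun j => j ∈ h.2) (a S) h.1 ∧
            C.mval (fun j => j ∈ h.2) (a (S ∪ Y l z)) h.1))
            ≤ avg (fun ω => F h (S ∪ X l ω)) - F h S + e := by
        intro h hh
        by_cases hm : C.mval (fun j => j ∈ h.2) (a S) h.1
        · have h3 : avg (fun z : Z => ind (¬ C.mval (fun j => j ∈ h.2) (a S) h.1 ∧
              C.mval (fun j => j ∈ h.2) (a (S ∪ Y l z)) h.1)) = 0 := by
            have : (fun z : Z => ind (¬ C.mval (fun j => j ∈ h.2) (a S) h.1 ∧
              C.mval (fun j => j ∈ h.2) (a (S ∪ Y l z)) h.1)) = fun _ => (0 : ℝ) := by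
              funext z
              exact ind_false (fun hc => hc.1 hm)
            rw [this, avg_const]
          rw [h3]
          exact hnn h hh
        · have hF0 : F h S = 0 := by rw [hF]; exact ind_false hm
          rw [hF0, sub_zero]
          have h3 := hmono l hl (fun j => j ∈ h.2) h.1 (hHs h hh) S hS
          have h4 : (fun ω => F h (S ∪ X l ω)) =
              fun ω => ind (C.mval (fun j => j ∈ h.2) (a (S ∪ X l ω)) h.1) := by
            rw [hF]
          rw [h4]
          exact (avg_mono fun z => ind_mono fun hc => hc.2).trans h3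
      have h5 := sum_le_sum h2
      have h6 : B l S = avg (fun z => ind (¬ C.val (a (S ∪ Y l z)) o)) := by
        rw [hB]
        simp only
        rw [ind_false hv, zero_add]
      rw [h6]
      linarith
  -- apply the averaging operators
  have step : ∀ l < m, (1 : ℝ) ≤ Ex X l (B l) +
      ∑ h ∈ H, (Ex X (l + 1) (F h) - Ex X l (F h) + e) := by
    intro l hl
    have h2 := Ex_mono (X := X) l (key l hl)
    rw [Ex_const, Ex_add, Ex_sum] at h2
    refine h2.trans (le_of_eq ?_)
    congr 1
    apply sum_congr rfl
    intro h _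
    rw [Ex_add l (fun S => avg (fun ω => F h (S ∪ X l ω)) - F h S) (fun _ => e), Ex_const,
      Ex_sub l (fun S => avg (fun ω => F h (S ∪ X l ω))) (F h)]
    rfl
  have hsum : (m : ℝ) ≤ (∑ l ∈ range m, Ex X l (B l)) +
      ∑ h ∈ H, (Ex X m (F h) - F h ∅ + m * e) := by
    calc (m : ℝ) = ∑ i ∈ range m, (1 : ℝ) := by
          rw [sum_const, card_range, nsmul_eq_mul, mul_one]
      _ ≤ ∑ l ∈ range m, (Ex X l (B l) + ∑ h ∈ H, (Ex X (l + 1) (F h) - Ex X l (F h) + e)) :=
          sum_le_sum fun i hi => step i (mem_range.1 hi)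
      _ = (∑ l ∈ range m, Ex X l (B l)) + ∑ h ∈ H, (Ex X m (F h) - F h ∅ + m * e) := by
          rw [sum_add_distrib]
          congr 1
          rw [sum_comm]
          apply sum_congr rfl
          intro h _
          rw [sum_add_distrib, sum_range_sub (fun i => Ex X i (F h)), sum_const,
            card_range, nsmul_eq_mul]
          rfl
  have hF01 : ∀ h S, 0 ≤ F h S ∧ F h S ≤ 1 := fun h S => by
    rw [hF]; exact ⟨ind_nonneg _, ind_le_one _⟩
  have hbd : ∀ h ∈ H, Ex X m (F h) - F h ∅ + m * e ≤ 1 + m * e := by
    intro h _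
    have h4 : Ex X m (F h) ≤ 1 := by
      calc Ex X m (F h) ≤ Ex X m (fun _ => (1 : ℝ)) :=
            Ex_mono m fun S _ => (hF01 h S).2
        _ = 1 := Ex_const _ _
    have h5 : 0 ≤ F h ∅ := (hF01 h ∅).1
    linarith
  have hcard : ∑ h ∈ H, (Ex X m (F h) - F h ∅ + m * e) ≤
      ((C.numWires o + 1) * 2 ^ C.numOther o : ℕ) * (1 + m * e) := by
    calc ∑ h ∈ H, (Ex X m (F h) - F h ∅ + m * e)
        ≤ ∑ h ∈ H, (1 + m * e) := sum_le_sum hbd
      _ = H.card * (1 + m * e) := by rw [sum_const, nsmul_eq_mul]
      _ ≤ _ := by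
          apply mul_le_mul_of_nonneg_right
          · exact_mod_cast hH
          · positivity
  linarith

end Chain

end AlmostMono
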