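import Pool.Agent.Lib.MP_8fffab_lc_NM.Defs

/-!
# The dynamic program for Set Cover as a monotone circuit

The dynamic program over the subsets of the ground set is a monotone circuit with at most
`2 ^ n * (m * n * k)` AND gates.
-/

set_option autoImplicit false

open Finset

namespace AlmostMono

variable {ι : Type}

/-! ### Building circuits gate by gate -/

theorem val_update_lt (C : Circuit ι) (s : ℕ) (G : Gate ι s) (x : ι → Prop) (i : ℕ) (hi : i < s) :
    Circuit.val (Function.update C s G) x i = C.val x i := by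
  induction i using Nat.strong_induction_on with
  | _ i ih =>
    have hC : (Function.update C s G) i = C i := Function.update_of_ne hi.ne _ _
    rw [Circuit.val, Circuit.val, hC]
    have ih' : ∀ a : Fin i, Circuit.val (Function.update C s G) x a = C.val x a :=
      fun a => ih a a.isLt (a.isLt.trans hi)
    cases C i with
    | input v => rfl
    | const b => rfl
    | and a b => simp only [ih']
    | or S => simp only [ih']
    | other r w g => simp only [ih']

/-- All functions in `S` are computed by gates of one circuit with at most `t` AND gates and no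
other gates than AND and OR gates. -/
def Built (t : ℕ) (S : Set ((ι → Prop) → Prop)) : Prop :=
  ∃ (C : Circuit ι) (s : ℕ), ((range s).filter fun i => (C i).isAnd = true).card ≤ t ∧
    (∀ i < s, (C i).isOther = false ∧ (C i).wires = 0) ∧
    ∀ f ∈ S, ∃ g < s, ∀ x, C.val x g = f x

theorem Built.mono {t t' : ℕ} {S S' : Set ((ι → Prop) → Prop)} (h : Built t S) (ht : t ≤ t')
    (hS : S' ⊆ S) : Built t' S' := by
  obtain ⟨C, s, h1, h2, h3⟩ := h
  exact ⟨C, s, h1.trans ht, h2, fun f hf => h3 f (hS hf)⟩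

theorem Built.empty : Built (ι := ι) 0 ∅ :=
  ⟨fun _ => .const true, 0, by simp, by simp, by simp⟩

/-- The function `r` is obtained from functions in `S` by one gate, with `c` AND gates. -/
def IsGate (S : Set ((ι → Prop) → Prop)) (r : (ι → Prop) → Prop) (c : ℕ) : Prop :=
  (∃ e, r = fun x => x e) ∨ (∃ b : Bool, r = fun _ => (b = true)) ∨
  (∃ fs : Finset ((ι → Prop) → Prop), (∀ f ∈ fs, f ∈ S) ∧ r = fun x => ∃ f ∈ fs, f x) ∨
  (c = 1 ∧ ∃ a ∈ S, ∃ b ∈ S, r = fun x => a x ∧ b x)

theorem IsGate.mono {S S' : Set ((ι → Prop) → Prop)} {r : (ι → Prop) → Prop} {c : ℕ}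
    (h : IsGate S r c) (hS : S ⊆ S') : IsGate S' r c := by
  rcases h with h | h | ⟨fs, h1, h2⟩ | ⟨hc, a, ha, b, hb, h⟩
  · exact Or.inl h
  · exact Or.inr (Or.inl h)
  · exact Or.inr (Or.inr (Or.inl ⟨fs, fun f hf => hS (h1 f hf), h2⟩))
  · exact Or.inr (Or.inr (Or.inr ⟨hc, a, hS ha, b, hS hb, h⟩))

theorem Built.step {t c : ℕ} {S : Set ((ι → Prop) → Prop)} (h : Built t S)
    {r : (ι → Prop) → Prop} (hr : IsGate S r c) : Built (t + c) (insert r S) := by
  classical
  obtain ⟨C, s, h1, h2, h3⟩ := h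
  -- the new gate
  obtain ⟨G, hG1, hG2, hG3, hG4⟩ : ∃ G : Gate ι s, (G.isAnd = true → c = 1) ∧
      G.isOther = false ∧ G.wires = 0 ∧
      ∀ x, Circuit.val (Function.update C s G) x s = r x := by
    rcases hr with ⟨e, rfl⟩ | ⟨b, rfl⟩ | ⟨fs, hfs, rfl⟩ | ⟨hc, a, ha, b, hb, rfl⟩
    · refine ⟨.input e, by simp [Gate.isAnd], rfl, rfl, fun x => ?_⟩
      rw [Circuit.val, Function.update_self]
    · refine ⟨.const b, by simp [Gate.isAnd], rfl, rfl, fun x => ?_⟩
      rw [Circuit.val, Function.update_self]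
    · choose! g hg1 hg2 using fun f (hf : f ∈ fs) => h3 f (hfs f hf)
      refine ⟨.or (fs.attach.image fun f => (⟨g f.1, hg1 f.1 f.2⟩ : Fin s)),
        by simp [Gate.isAnd], rfl, rfl, fun x => ?_⟩
      rw [Circuit.val, Function.update_self]
      apply propext
      constructor
      · rintro ⟨a, ha, hx⟩
        obtain ⟨f, -, rfl⟩ := Finset.mem_image.1 ha
        refine ⟨f.1, f.2, ?_⟩
        rw [val_update_lt _ _ _ _ _ (hg1 f.1 f.2), hg2 f.1 f.2] at hx
        exact hx
      · rintro ⟨f, hf, hx⟩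
        refine ⟨⟨g f, hg1 f hf⟩, Finset.mem_image.2 ⟨⟨f, hf⟩, Finset.mem_attach _ _, rfl⟩, ?_⟩
        rw [val_update_lt _ _ _ _ _ (hg1 f hf), hg2 f hf]
        exact hx
    · obtain ⟨g, hg1, hg2⟩ := h3 a ha
      obtain ⟨g', hg'1, hg'2⟩ := h3 b hb
      refine ⟨.and ⟨g, hg1⟩ ⟨g', hg'1⟩, fun _ => hc, rfl, rfl, fun x => ?_⟩
      rw [Circuit.val, Function.update_self]
      change (Circuit.val _ x g ∧ Circuit.val _ x g') = _
      rw [val_update_lt _ _ _ _ _ hg1, val_update_lt _ _ _ _ _ hg'1, hg2, hg'2]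
  refine ⟨Function.update C s G, s + 1, ?_, ?_, ?_⟩
  · rw [Finset.range_add_one, Finset.filter_insert]
    have e1 : ((range s).filter fun i => (Function.update C s G i).isAnd = true) =
        (range s).filter fun i => (C i).isAnd = true := by
      refine Finset.filter_congr fun i hi => ?_
      rw [Function.update_of_ne (Finset.mem_range.1 hi).ne]
    rw [Function.update_self, e1]
    by_cases hA : G.isAnd = true
    · rw [if_pos hA, hG1 hA]
      exact (Finset.card_insert_le _ _).trans (by omega)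
    · rw [if_neg hA]
      omega
  · intro i hi
    rcases Nat.lt_succ_iff_lt_or_eq.1 hi with hi | rfl
    · rw [Function.update_of_ne hi.ne]
      exact h2 i hi
    · rw [Function.update_self]
      exact ⟨hG2, hG3⟩
  · intro f hf
    rcases hf with rfl | hf
    · exact ⟨s, Nat.lt_succ_self s, hG4⟩
    · obtain ⟨g, hg1, hg2⟩ := h3 f hf
      refine ⟨g, by omega, fun x => ?_⟩
      rw [val_update_lt _ _ _ _ _ hg1]
      exact hg2 x

theorem Built.steps {t c : ℕ} {S : Set ((ι → Prop) → Prop)} (h : Built t S)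
    (R : Finset ((ι → Prop) → Prop)) (hR : ∀ r ∈ R, IsGate S r c) :
    Built (t + c * R.card) (S ∪ ↑R) := by
  classical
  induction R using Finset.induction_on with
  | empty => simpa using h
  | insert r R hr ih =>
    have h1 := ih fun r' hr' => hR r' (Finset.mem_insert_of_mem hr')
    have h2 := h1.step ((hR r (Finset.mem_insert_self _ _)).mono Set.subset_union_left)
    refine h2.mono ?_ ?_
    · rw [Finset.card_insert_of_notMem hr]
      ring_nf
      exact le_refl _
    · rw [Finset.coe_insert, Set.union_insert]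

/-! ### The dynamic program -/

variable {m n : ℕ}

/-- At most `j` sets cover `X`. -/
def T (m : ℕ) {n : ℕ} (j : ℕ) (X : Finset (Fin n)) (x : Fin m × Fin n → Prop) : Prop :=
  ∃ I : Finset (Fin m), I.card ≤ j ∧ ∀ v ∈ X, ∃ i ∈ I, x (i, v)

/-- At most `j` sets cover the set of the elements of `X` which are not among the first `v`
elements of set number `i`. -/
def W (j : ℕ) (i : Fin m) (v : ℕ) (X : Finset (Fin n)) (x : Fin m × Fin n → Prop) : Prop :=
  ∃ I : Finset (Fin m), I.card ≤ j ∧ ∀ u ∈ X, (u.val < v ∧ x (i, u)) ∨ ∃ i' ∈ I, x (i', u)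

theorem W_zero (j : ℕ) (i : Fin m) (X : Finset (Fin n)) : W j i 0 X = T m j X := by
  funext x
  simp [W, T]

theorem W_succ (j : ℕ) (i : Fin m) (v : Fin n) (X : Finset (Fin n)) (x : Fin m × Fin n → Prop) :
    W j i (v.val + 1) X x = (W j i v.val X x ∨ (x (i, v) ∧ W j i v.val (X.erase v) x)) := by
  apply propext
  constructor
  · rintro ⟨I, hI, h⟩
    by_cases hx : x (i, v)
    · refine Or.inr ⟨hx, I, hI, fun u hu => ?_⟩
      obtain ⟨hu1, hu2⟩ := Finset.mem_erase.1 hu
      rcases h u hu2 with ⟨h1, h2⟩ | h1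
      · have : u.val ≠ v.val := fun h => hu1 (Fin.ext h)
        exact Or.inl ⟨by omega, h2⟩
      · exact Or.inr h1
    · refine Or.inl ⟨I, hI, fun u hu => ?_⟩
      rcases h u hu with ⟨h1, h2⟩ | h1
      · have : u.val ≠ v.val := fun h => hx (by rwa [Fin.ext h] at h2)
        exact Or.inl ⟨by omega, h2⟩
      · exact Or.inr h1
  · rintro (⟨I, hI, h⟩ | ⟨hx, I, hI, h⟩)
    · refine ⟨I, hI, fun u hu => ?_⟩
      rcases h u hu with ⟨h1, h2⟩ | h1
      · exact Or.inl ⟨by omega, h2⟩
      · exact Or.inr h1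
    · refine ⟨I, hI, fun u hu => ?_⟩
      by_cases huv : u = v
      · subst huv
        exact Or.inl ⟨by omega, hx⟩
      · rcases h u (Finset.mem_erase.2 ⟨huv, hu⟩) with ⟨h1, h2⟩ | h1
        · exact Or.inl ⟨by omega, h2⟩
        · exact Or.inr h1

theorem T_zero (X : Finset (Fin n)) : T m 0 X = fun _ => (decide (X = ∅) = true) := by
  funext x
  apply propext
  rw [decide_eq_true_iff]
  constructor
  · rintro ⟨I, hI, h⟩
    have hI' : I = ∅ := Finset.card_eq_zero.1 (Nat.le_zero.1 hI)
    subst hI'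
    refine Finset.eq_empty_of_forall_notMem fun v hv => ?_
    obtain ⟨i, hi, -⟩ := h v hv
    exact absurd hi (Finset.notMem_empty i)
  · rintro rfl
    exact ⟨∅, by simp, by simp⟩

theorem T_succ (j : ℕ) (X : Finset (Fin n)) (x : Fin m × Fin n → Prop) :
    T m (j + 1) X x = (T m j X x ∨ ∃ i, W j i n X x) := by
  classical
  apply propext
  constructor
  · rintro ⟨I, hI, h⟩
    rcases I.eq_empty_or_nonempty with rfl | ⟨i, hi⟩
    · exact Or.inl ⟨∅, by simp, h⟩
    · refine Or.inr ⟨i, I.erase i, ?_, fun u hu => ?_⟩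
      · rw [Finset.card_erase_of_mem hi]
        omega
      · obtain ⟨i', hi', hx⟩ := h u hu
        by_cases hii : i' = i
        · subst hii
          exact Or.inl ⟨u.isLt, hx⟩
        · exact Or.inr ⟨i', Finset.mem_erase.2 ⟨hii, hi'⟩, hx⟩
  · rintro (⟨I, hI, h⟩ | ⟨i, I, hI, h⟩)
    · exact ⟨I, by omega, h⟩
    · refine ⟨insert i I, (Finset.card_insert_le _ _).trans (by omega), fun u hu => ?_⟩
      rcases h u hu with ⟨-, h1⟩ | ⟨i', hi', h1⟩
      · exact ⟨i, Finset.mem_insert_self _ _, h1⟩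
      · exact ⟨i', Finset.mem_insert_of_mem hi', h1⟩

/-- The functions available after stage `(j, v)`. -/
def Avail (m n j v : ℕ) : Set ((Fin m × Fin n → Prop) → Prop) :=
  (Set.range fun (e : Fin m × Fin n) (x : Fin m × Fin n → Prop) => x e) ∪
    (Set.range fun X : Finset (Fin n) => T m j X) ∪
    Set.range fun p : Fin m × Finset (Fin n) => W j p.1 v p.2

theorem avail_zero (m n j : ℕ) {t : ℕ}
    (h : Built t ((Set.range fun (e : Fin m × Fin n) (x : Fin m × Fin n → Prop) => x e) ∪
      (Set.range fun X : Finset (Fin n) => T m j X))) : Built t (Avail m n j 0) := by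
  refine h.mono le_rfl ?_
  rintro f (hf | ⟨p, rfl⟩)
  · exact hf
  · right
    exact ⟨p.2, (W_zero j p.1 p.2).symm⟩

theorem avail_succ {t j : ℕ} (v : Fin n) (h : Built t (Avail m n j v.val)) :
    Built (t + m * 2 ^ n) (Avail m n j (v.val + 1)) := by
  classical
  -- the AND gates
  let A : Fin m × Finset (Fin n) → (Fin m × Fin n → Prop) → Prop :=
    fun p x => x (p.1, v) ∧ W j p.1 v.val (p.2.erase v) x
  have h1 := h.steps (c := 1) (Finset.univ.image A) (by
    intro r hr
    obtain ⟨p, -, rfl⟩ := Finset.mem_image.1 hr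
    refine Or.inr (Or.inr (Or.inr ⟨rfl, fun x => x (p.1, v), ?_,
      W j p.1 v.val (p.2.erase v), ?_, rfl⟩))
    · exact Or.inl (Or.inl ⟨(p.1, v), rfl⟩)
    · exact Or.inr ⟨(p.1, p.2.erase v), rfl⟩)
  -- the OR gates
  have h2 := h1.steps (c := 0) (Finset.univ.image fun p : Fin m × Finset (Fin n) =>
      W j p.1 (v.val + 1) p.2) (by
    intro r hr
    obtain ⟨p, -, rfl⟩ := Finset.mem_image.1 hr
    refine Or.inr (Or.inr (Or.inl ⟨{W j p.1 v.val p.2, A p}, ?_, ?_⟩))
    · intro f hf
      rcases Finset.mem_insert.1 hf with rfl | hf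
      · exact Or.inl (Or.inr ⟨p, rfl⟩)
      · rw [Finset.mem_singleton.1 hf]
        exact Or.inr (Finset.mem_coe.2 (Finset.mem_image_of_mem A (Finset.mem_univ p)))
    · funext x
      rw [W_succ]
      simp [A])
  refine h2.mono ?_ ?_
  · have h3 : (Finset.univ.image A).card ≤ m * 2 ^ n := by
      refine Finset.card_image_le.trans ?_
      rw [Finset.card_univ, Fintype.card_prod, Fintype.card_finset, Fintype.card_fin,
        Fintype.card_fin]
    omega
  · rintro f (hf | ⟨p, rfl⟩)
    · exact Or.inl (Or.inl (Or.inl hf))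
    · exact Or.inr (Finset.mem_coe.2 (Finset.mem_image_of_mem _ (Finset.mem_univ p)))

theorem avail_le {t j : ℕ} (h : Built t (Avail m n j 0)) (v : ℕ) (hv : v ≤ n) :
    Built (t + v * (m * 2 ^ n)) (Avail m n j v) := by
  induction v with
  | zero => simpa using h
  | succ v ih =>
    have h1 := avail_succ (⟨v, hv⟩ : Fin n) (ih (by omega))
    refine h1.mono ?_ (fun _ hf => hf)
    rw [Nat.succ_mul, add_assoc]

theorem avail_next {t j : ℕ} (h : Built t (Avail m n j 0)) :
    Built (t + n * (m * 2 ^ n)) (Avail m n (j + 1) 0) := by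
  classical
  have h0 := avail_le h n le_rfl
  have h1 := h0.steps (c := 0) (Finset.univ.image fun X : Finset (Fin n) => T m (j + 1) X) (by
    intro r hr
    obtain ⟨X, -, rfl⟩ := Finset.mem_image.1 hr
    refine Or.inr (Or.inr (Or.inl ⟨insert (T m j X) (Finset.univ.image fun i => W j i n X),
      ?_, ?_⟩))
    · intro f hf
      rcases Finset.mem_insert.1 hf with rfl | hf
      · exact Or.inl (Or.inr ⟨X, rfl⟩)
      · obtain ⟨i, -, rfl⟩ := Finset.mem_image.1 hf
        exact Or.inr ⟨(i, X), rfl⟩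
    · funext x
      rw [T_succ]
      simp)
  refine avail_zero m n (j + 1) (h1.mono (by omega) ?_)
  rintro f (hf | ⟨X, rfl⟩)
  · exact Or.inl (Or.inl (Or.inl hf))
  · exact Or.inr (Finset.mem_coe.2 (Finset.mem_image_of_mem _ (Finset.mem_univ X)))

theorem avail_first (m n : ℕ) : Built 0 (Avail m n 0 0) := by
  classical
  have h0 := (Built.empty (ι := Fin m × Fin n)).steps (c := 0)
    (Finset.univ.image fun (e : Fin m × Fin n) (x : Fin m × Fin n → Prop) => x e) (by
      intro r hr
      obtain ⟨e, -, rfl⟩ := Finset.mem_image.1 hr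
      exact Or.inl ⟨e, rfl⟩)
  have h1 := h0.steps (c := 0) (Finset.univ.image fun X : Finset (Fin n) => T m 0 X) (by
      intro r hr
      obtain ⟨X, -, rfl⟩ := Finset.mem_image.1 hr
      exact Or.inr (Or.inl ⟨decide (X = ∅), T_zero X⟩))
  refine avail_zero m n 0 (h1.mono (by omega) ?_)
  rintro f (⟨e, rfl⟩ | ⟨X, rfl⟩)
  · exact Or.inl (Or.inr (Finset.mem_coe.2 (Finset.mem_image_of_mem _ (Finset.mem_univ e))))
  · exact Or.inr (Finset.mem_coe.2 (Finset.mem_image_of_mem _ (Finset.mem_univ X)))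

theorem avail (m n j : ℕ) : Built (j * (n * (m * 2 ^ n))) (Avail m n j 0) := by
  induction j with
  | zero => simpa using avail_first m n
  | succ j ih =>
    refine (avail_next ih).mono ?_ (fun _ hf => hf)
    rw [Nat.succ_mul]

/-- **Upper bound.** The dynamic program is a monotone circuit (deterministic, no gates other than
AND and OR gates) with at most `2 ^ n * (m * n * k)` AND gates. -/
theorem upper (m n k : ℕ) : HasRandomCircuit m n k (2 ^ n * (m * n * k)) 0 0 (1 / 2) := by
  obtain ⟨C, s, h1, h2, h3⟩ := avail m n k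
  obtain ⟨o, ho, hval⟩ := h3 (T m k Finset.univ) (Or.inl (Or.inr ⟨Finset.univ, rfl⟩))
  have hle : ∀ i ∈ range (o + 1), i < s := fun i hi => by
    have := Finset.mem_range.1 hi
    omega
  have hcov : ∀ a : Fin m → Fin n → Prop,
      C.val (fun e => a e.1 e.2) o ↔ HasCover k a := by
    intro a
    rw [hval]
    simp [T, HasCover]
  refine ⟨1, fun _ => 1, fun _ => C, fun _ => o, fun _ => zero_le_one, by simp, fun _ =>
    ⟨?_, ?_, ?_⟩, ?_, ?_⟩
  · refine (Finset.card_le_card ?_).trans (h1.trans (le_of_eq (by ring)))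
    intro i hi
    rw [Finset.mem_filter] at hi ⊢
    exact ⟨Finset.mem_range.2 (hle i hi.1), hi.2⟩
  · refine le_of_eq (Finset.card_eq_zero.2 (Finset.filter_eq_empty_iff.2 ?_))
    intro i hi
    rw [(h2 i (hle i hi)).1]
    simp
  · exact le_of_eq (Finset.sum_eq_zero fun i hi => (h2 i (hle i hi)).2)
  · intro a ha
    rw [← hcov] at ha
    unfold Prob
    simp only [if_pos ha]
    norm_num
  · intro a ha
    rw [← hcov] at ha
    unfold Prob
    simp only [if_neg ha]
    norm_num

end AlmostMono
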